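import Pool.Agent.H53.EFG.Lim

/-!
Blocks of capacities `c j`, each cut for its players (MP_fa8b7d_co).
-/

namespace Pool.Agent.H53.EFG

open Finset Pool.Agent.H62.EF MeasureTheory

/-- assembly -/
theorem assemble (q n m d : ℕ) (hq : IsPrimePow q) (hm : 0 < m) (hmd : m ≤ d)
    (lo hi : ℕ) (hlo : 0 < lo)
    (hR : ∀ A : Fin m → Fin n → Fin q → ℝ, (∀ r i j, 0 ≤ A r i j) → (∀ r i, ∑ j, A r i j = 1) →
      (∀ r j, ∑ i, A r i j = (n : ℝ) / q) →
      ∃ (c : Fin q → ℕ) (π : Fin m → Fin n → Fin q), (∀ j, lo ≤ c j ∧ c j ≤ hi) ∧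
        (∀ r j, Nat.card {i // π r i = j} = c j) ∧ ∀ r i, 0 < A r i (π r i))
    (μ : Fin m → Fin n → Measure (EuclideanSpace ℝ (Fin d)))
    (hμ : ∀ r i, IsProbabilityMeasure (μ r i))
    (hac : ∀ r i, (μ r i).AbsolutelyContinuous volume) :
    ∃ (C : Fin n → Set (EuclideanSpace ℝ (Fin d))) (g : Fin n → Fin q),
      (∀ k, Convex ℝ (C k)) ∧ (∀ k, IsClosed (C k)) ∧ (⋃ k, C k) = Set.univ ∧
      (∀ k l, k ≠ l → Disjoint (interior (C k)) (interior (C l))) ∧
      (∀ j, lo ≤ Nat.card {k // g k = j} ∧ Nat.card {k // g k = j} ≤ hi) ∧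
      ∀ r, ∃ π : Equiv.Perm (Fin n), ∀ i,
        (∀ j, μ r i (⋃ k ∈ {k | g k = j}, C k) ≤ μ r i (⋃ k ∈ {k | g k = g (π i)}, C k)) ∧
        μ r i (⋃ k ∈ {k | g k = g (π i)}, C k) ≤
          (Nat.card {k // g k = g (π i)} : ENNReal) * μ r i (C (π i)) ∧
        (IsPrimePow (Nat.card {k // g k = g (π i)}) →
          ∀ k, g k = g (π i) → μ r i (C k) ≤ μ r i (C (π i))) ∧
        (∀ k, μ r i (C k) ≤ (Nat.card {k // g k = g (π i)} : ENNReal) * μ r i (C (π i))) := by
  classical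
  obtain ⟨x, π0, hx, ⟨c, hc, hπ0⟩, hfav⟩ := blocksM q n m d hq hm hmd
    (fun π => ∃ c : Fin q → ℕ, (∀ j, lo ≤ c j ∧ c j ≤ hi) ∧
      ∀ r j, Nat.card {i // π r i = j} = c j) (by
      intro A hA hrow hcol
      obtain ⟨c, π, h1, h2, h3⟩ := hR A hA hrow hcol
      exact ⟨π, ⟨c, h1, h2⟩, h3⟩) μ hμ hac
  set C0 : Fin q → Set (EuclideanSpace ℝ (Fin d)) := fun j => piece x j with hC0
  have hcov : (⋃ j, C0 j) = Set.univ := Pool.Agent.H41.EF.EF6c hq.pos x
  have hclosed : ∀ j, IsClosed (C0 j) := Pool.Agent.H41.EF.EF6b x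
  have htop : ∀ r i (S : Set (EuclideanSpace ℝ (Fin d))), μ r i S ≠ ⊤ := by
    intro r i S
    have := hμ r i
    exact measure_ne_top _ _
  have hpos : ∀ r i, μ r i (C0 (π0 r i)) ≠ 0 := by
    intro r i h0
    have := hμ r i
    have h1 : (1 : ENNReal) = μ r i (⋃ j, C0 j) := by
      rw [hcov]
      exact measure_univ.symm
    have h2 : μ r i (⋃ j, C0 j) ≤ ∑' j, μ r i (C0 j) := measure_iUnion_le _
    rw [← h1, tsum_fintype] at h2
    have h3 : ∑ j, μ r i (C0 j) = 0 := by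
      apply Finset.sum_eq_zero
      intro j _
      exact le_antisymm (le_trans (hfav r i j) (le_of_eq h0)) (by simp)
    rw [h3] at h2
    exact absurd h2 (by simp)
  -- inner partitions
  have hin := fun j : Fin q => proporM m d hm hmd (c j) (lt_of_lt_of_le hlo (hc j).1)
    (fun r => {i : Fin n // π0 r i = j}) (fun r => by
      have := hπ0 r j
      rw [Nat.card_eq_fintype_card] at this
      exact this)
    (fun r i => (μ r i.1 (C0 j))⁻¹ • (μ r i.1).restrict (C0 j))
    (by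
      rintro r ⟨i, hi⟩
      constructor
      rw [Measure.smul_apply, Measure.restrict_apply_univ, smul_eq_mul]
      subst hi
      exact ENNReal.inv_mul_cancel (hpos r i) (htop r i _))
    (by
      rintro r ⟨i, hi⟩
      apply Measure.AbsolutelyContinuous.smul_left
      exact (Measure.absolutelyContinuous_of_le Measure.restrict_le_self).trans (hac r i))
  choose C' hC'1 hC'2 hC'3 hC'4 hC'5 using hin
  choose π' hπ'1 hπ'2 hπ'3 using hC'5
  have happ : ∀ r i (S : Set (EuclideanSpace ℝ (Fin d))),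
      ((μ r i (C0 (π0 r i)))⁻¹ • (μ r i).restrict (C0 (π0 r i))) S =
      (μ r i (C0 (π0 r i)))⁻¹ * μ r i (S ∩ C0 (π0 r i)) := by
    intro r i S
    rw [Measure.smul_apply, Measure.restrict_apply' (hclosed _).measurableSet, smul_eq_mul]
  have hinv0 : ∀ r i, (μ r i (C0 (π0 r i)))⁻¹ ≠ 0 := fun r i =>
    ENNReal.inv_ne_zero.mpr (htop r i _)
  have hinvt : ∀ r i, (μ r i (C0 (π0 r i)))⁻¹ ≠ ⊤ := fun r i =>
    ENNReal.inv_ne_top.mpr (hpos r i)
  -- reindexing
  have hcard : Fintype.card (Σ j : Fin q, Fin (c j)) = n := by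
    rw [Fintype.card_sigma]
    simp only [Fintype.card_fin]
    have h1 : Fintype.card (Σ j : Fin q, {i : Fin n // π0 ⟨0, hm⟩ i = j}) = n := by
      rw [Fintype.card_congr (Equiv.sigmaFiberEquiv (π0 ⟨0, hm⟩)), Fintype.card_fin]
    rw [Fintype.card_sigma] at h1
    rw [← h1]
    apply Finset.sum_congr rfl
    intro j _
    rw [← hπ0 ⟨0, hm⟩ j, Nat.card_eq_fintype_card]
  let e : (Σ j : Fin q, Fin (c j)) ≃ Fin n := Fintype.equivFinOfCardEq hcard
  let D : (Σ j : Fin q, Fin (c j)) → Set (EuclideanSpace ℝ (Fin d)) :=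
    fun s => C0 s.1 ∩ C' s.1 s.2
  have hgrp : ∀ j, (⋃ k ∈ {k : Fin n | (e.symm k).1 = j}, D (e.symm k)) = C0 j := by
    intro j
    ext p
    simp only [Set.mem_iUnion, Set.mem_ofPred_eq, exists_prop]
    constructor
    · rintro ⟨k, hk, hp⟩
      rw [← hk]
      exact hp.1
    · intro hp
      have h1 : p ∈ ⋃ a, C' j a := by rw [hC'3]; exact Set.mem_univ _
      obtain ⟨a, ha⟩ := Set.mem_iUnion.mp h1
      refine ⟨e ⟨j, a⟩, ?_, ?_⟩
      · rw [Equiv.symm_apply_apply]
      · rw [Equiv.symm_apply_apply]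
        exact ⟨hp, ha⟩
  have hgc : ∀ j, Nat.card {k : Fin n // (e.symm k).1 = j} = c j := by
    intro j
    have e1 : {k : Fin n // (e.symm k).1 = j} ≃ {s : (Σ j : Fin q, Fin (c j)) // s.1 = j} :=
      e.symm.subtypeEquiv (fun k => Iff.rfl)
    rw [Nat.card_congr e1, Nat.card_congr (Equiv.sigmaSubtype j), Nat.card_eq_fintype_card,
      Fintype.card_fin]
  refine ⟨fun k => D (e.symm k), fun k => (e.symm k).1, ?_, ?_, ?_, ?_, ?_, ?_⟩
  · intro k
    exact (Pool.Agent.H41.EF.EF6a x _).inter (hC'1 _ _)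
  · intro k
    exact (hclosed _).inter (hC'2 _ _)
  · rw [Set.eq_univ_iff_forall]
    intro p
    have h1 : p ∈ ⋃ j, C0 j := by rw [hcov]; exact Set.mem_univ _
    obtain ⟨j, hj⟩ := Set.mem_iUnion.mp h1
    have h2 : p ∈ ⋃ a, C' j a := by rw [hC'3]; exact Set.mem_univ _
    obtain ⟨a, ha⟩ := Set.mem_iUnion.mp h2
    refine Set.mem_iUnion.mpr ⟨e ⟨j, a⟩, ?_⟩
    rw [Equiv.symm_apply_apply]
    exact ⟨hj, ha⟩
  · have hdis : ∀ s s' : (Σ j : Fin q, Fin (c j)), s ≠ s' →
        Disjoint (interior (D s)) (interior (D s')) := by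
      rintro ⟨j, a⟩ ⟨j', a'⟩ hss
      by_cases hj : j = j'
      · subst hj
        have ha : a ≠ a' := fun h => hss (by rw [h])
        exact (hC'4 j a a' ha).mono (interior_mono Set.inter_subset_right)
          (interior_mono Set.inter_subset_right)
      · exact (Pool.Agent.H41.EF.EF6d x hx j j' hj).mono (interior_mono Set.inter_subset_left)
          (interior_mono Set.inter_subset_left)
    intro k l hkl
    exact hdis _ _ (fun h => hkl (e.symm.injective h))
  · intro j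
    rw [hgc j]
    exact hc j
  · intro r
    have hinj : Function.Injective
        (fun i : Fin n => e ⟨π0 r i, π' (π0 r i) r ⟨i, rfl⟩⟩) := by
      have key : ∀ (i i' : Fin n) (j : Fin q) (hi : π0 r i = j) (hi' : π0 r i' = j),
          π' j r ⟨i, hi⟩ = π' j r ⟨i', hi'⟩ → i = i' := by
        intro i i' j hi hi' h
        have := (hπ'1 j r).1 h
        exact congrArg Subtype.val this
      intro i i' h
      have h1 := e.injective h
      have h2 : π0 r i = π0 r i' := congrArg Sigma.fst h1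
      have h3 : ∀ (s : Σ j : Fin q, Fin (c j)), s = ⟨π0 r i', π' (π0 r i') r ⟨i', rfl⟩⟩ →
          s = ⟨π0 r i, π' (π0 r i) r ⟨i, rfl⟩⟩ → i = i' := by
        intro s hs hs'
        rw [hs] at hs'
        have h4 : (⟨π0 r i', π' (π0 r i') r ⟨i', rfl⟩⟩ : Σ j : Fin q, Fin (c j)) =
            ⟨π0 r i, π' (π0 r i) r ⟨i', h2.symm⟩⟩ := by
          have : ∀ (j : Fin q) (hj : π0 r i' = j),
              (⟨π0 r i', π' (π0 r i') r ⟨i', rfl⟩⟩ : Σ j : Fin q, Fin (c j)) =
              ⟨j, π' j r ⟨i', hj⟩⟩ := by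
            intro j hj
            subst hj
            rfl
          exact this _ h2.symm
        rw [h4] at hs'
        have h5 := eq_of_heq (Sigma.mk.inj_iff.mp hs').2
        exact (key i' i _ h2.symm rfl h5).symm
      exact h3 _ h1 rfl
    have hbij := Finite.injective_iff_bijective.mp hinj
    refine ⟨Equiv.ofBijective _ hbij, ?_⟩
    intro i
    have hfst : (e.symm (Equiv.ofBijective _ hbij i)).1 = π0 r i := by
      rw [Equiv.ofBijective_apply, Equiv.symm_apply_apply]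
    have hown : D (e.symm (Equiv.ofBijective _ hbij i)) =
        C' (π0 r i) (π' (π0 r i) r ⟨i, rfl⟩) ∩ C0 (π0 r i) := by
      rw [Equiv.ofBijective_apply, Equiv.symm_apply_apply]
      exact Set.inter_comm _ _
    have hb : μ r i (C0 (π0 r i)) ≤ (c (π0 r i) : ENNReal) *
        μ r i (C' (π0 r i) (π' (π0 r i) r ⟨i, rfl⟩) ∩ C0 (π0 r i)) := by
      have h1 := hπ'2 (π0 r i) r ⟨i, rfl⟩
      simp only [happ] at h1
      have h2 := mul_le_mul_right h1 (μ r i (C0 (π0 r i)))
      rw [mul_one] at h2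
      refine le_trans h2 (le_of_eq ?_)
      rw [mul_left_comm, ← mul_assoc (μ r i (C0 (π0 r i))),
        ENNReal.mul_inv_cancel (hpos r i) (htop r i _), one_mul]
    beta_reduce
    rw [hfst, hgc, hgrp, hown]
    refine ⟨?_, hb, ?_, ?_⟩
    · intro j
      rw [hgrp]
      exact hfav r i j
    · intro hpp k hk
      have h1 := hπ'3 (π0 r i) r hpp ⟨i, rfl⟩
      have h2 : ∀ (s : Σ j : Fin q, Fin (c j)), s.1 = π0 r i → μ r i (D s) ≤
          μ r i (C' (π0 r i) (π' (π0 r i) r ⟨i, rfl⟩) ∩ C0 (π0 r i)) := by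
        rintro ⟨j, a⟩ hj
        change j = π0 r i at hj
        subst hj
        have h3 := h1 a
        simp only [happ] at h3
        have h4 := (ENNReal.mul_le_mul_iff_right (hinv0 r i) (hinvt r i)).mp h3
        rw [Set.inter_comm] at h4
        exact h4
      exact h2 _ hk
    · intro k
      refine le_trans (measure_mono Set.inter_subset_left) ?_
      exact le_trans (hfav r i _) hb

end Pool.Agent.H53.EFG
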