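import Pool.Agent.H62.EF.Lab

/-!
Equalization (MP_fa8b7d_co): equivariant continuous functions of configurations of `n` affine
functions, `n` a prime power, can be equalized, `d` families at once.
-/

namespace Pool.Agent.H53.EFG

open Finset Pool.Agent.H62.EF

/-- equivariance of a family of functions of configurations -/
def Equi {n d : ℕ} (W : Fin d → (Fin n → P d) → Fin n → ℝ) : Prop :=
  ∀ c x (h : Equiv.Perm (Fin n)) i, W c (fun i => x (h.symm i)) i = W c x (h.symm i)

/-- index of the largest value -/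
noncomputable def ge {n d : ℕ} [NeZero n] (K : ℕ) (W : Fin d → (Fin n → P d) → Fin n → ℝ)
    (v : V n d) (c : Fin d) : Fin n :=
  amax (fun i => toLex (W c (cfg (scl K v)) i, ordP (cfg (scl K v) i)))

open Classical in
/-- mixed choice -/
noncomputable def gme {n d : ℕ} [NeZero n] (K : ℕ) (R : ℤ)
    (W : Fin d → (Fin n → P d) → Fin n → ℝ) (v : V n d) (c : Fin d) : Fin n :=
  if Inside R v then ge K W v c else g0 K v c

theorem ge_act {n d : ℕ} [NeZero n] (K : ℕ) (hK : 0 < K)
    (W : Fin d → (Fin n → P d) → Fin n → ℝ) (hW : Equi W) (v : V n d) (c : Fin d)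
    (A : Finset (Fin n)) (h : Equiv.Perm (Fin n)) (hsep : Sep (K : ℤ) v c A) (hA : Shuf h A)
    (c' : Fin d) : ge K W (act h v) c' = h (ge K W v c') := by
  unfold ge
  rw [cfg_act K hK v c A h hsep hA]
  have e : (fun i => toLex (W c' (fun i => cfg (scl K v) (h.symm i)) i,
      ordP (cfg (scl K v) (h.symm i)))) =
      fun i => (fun i => toLex (W c' (cfg (scl K v)) i, ordP (cfg (scl K v) i))) (h.symm i) := by
    funext i
    simp only [hW c' (cfg (scl K v)) h i]
  rw [e]
  exact amax_perm (fun i => toLex (W c' (cfg (scl K v)) i,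
    ordP (cfg (scl K v) i))) (keyf_inj _ (Pool.Agent.H58.EF.EF7a _) _) h

theorem gme_compat {n d : ℕ} [NeZero n] (K : ℕ) (hK : 0 < K) (R : ℤ)
    (W : Fin d → (Fin n → P d) → Fin n → ℝ) (hW : Equi W) :
    Compat (K : ℤ) (gme (n := n) (d := d) K R W) := by
  intro v c A h hsep hA c'
  unfold gme
  by_cases hin : Inside R v
  · rw [if_pos ((inside_act_iff R v h).mpr hin), if_pos hin]
    exact ge_act K hK W hW v c A h hsep hA c'
  · rw [if_neg (fun H => hin ((inside_act_iff R v h).mp H)), if_neg hin]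
    exact g0_act K hK v c A h hsep hA c'

/-- one step of the approximation -/
theorem stepE (p k n d : ℕ) [NeZero n] (hp : p.Prime) (hn : n = p ^ k) (hn2 : 2 ≤ n) (hd : 0 < d)
    (K : ℕ) (hK : 2 * n < K) (W : Fin d → (Fin n → P d) → Fin n → ℝ) (hW : Equi W) :
    ∃ u : Fin n → Fin d → ℝ, (∀ i c, |u i c| ≤ 2 * n) ∧
      ∀ c i, ∃ z : Fin n → Fin d → ℝ, dist z u ≤ 1 / K ∧ ∀ l, W c (cfg z) l ≤ W c (cfg z) i := by
  classical
  have hK0 : 0 < K := by omega
  have hKr : (0 : ℝ) < K := by exact_mod_cast hK0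
  set R : ℤ := (n : ℤ) * (K + 1) with hR
  obtain ⟨y, hy1, hy2, hy3, hy4⟩ := comb p k n d hp hn hn2 hd K (gme K R W) (g0 K)
    (gme_compat K hK0 R W hW) (by
      intro v hv
      funext c
      unfold gme
      rw [if_neg hv]) (g0_std K hK0) (g0_near K hK)
  have hblk : ∀ (c : Fin d) (j : ℕ), j < n → n * (c : ℕ) + (j + 1) ≤ d * n := by
    intro c j hj
    exact block_le c ⟨j + 1, by omega⟩
  refine ⟨scl K (y 0), ?_, ?_⟩
  · intro i c
    have h1 := hy1 0 (Nat.zero_le _) i c
    unfold scl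
    rw [abs_div, abs_of_pos hKr, div_le_iff₀ hKr]
    have h2 : (|(y 0 i c : ℝ)|) ≤ (n : ℝ) * (K + 1) := by
      have : ((|y 0 i c| : ℤ) : ℝ) ≤ ((n : ℤ) * (K + 1) : ℤ) := by exact_mod_cast h1
      push_cast at this
      exact this
    have h3 : (1 : ℝ) ≤ K := by exact_mod_cast hK0
    have h4 : (0 : ℝ) ≤ n := Nat.cast_nonneg n
    nlinarith
  · intro c i
    obtain ⟨j, hj⟩ := (Finite.injective_iff_bijective.mp (hy4 c)).2 i
    have hj' : gme K R W (y (n * c + (j + 1))) c = i := hj
    refine ⟨scl K (y (n * c + (j + 1))), ?_, ?_⟩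
    · rw [dist_pi_le_iff (by positivity)]
      intro i
      rw [dist_pi_le_iff (by positivity)]
      intro c'
      unfold scl
      rw [Real.dist_eq, ← sub_div, abs_div, abs_of_pos hKr]
      apply div_le_div_of_nonneg_right _ hKr.le
      have h1 := hy3 (n * c + (j + 1)) i c'
      have h2 : |y (n * c + (j + 1)) i c' - y 0 i c'| ≤ 1 := by
        rw [abs_le]; constructor <;> omega
      exact_mod_cast h2
    · intro l
      have hin : Inside R (y (n * c + (j + 1))) := hy1 _ (hblk c _ j.isLt)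
      have h1 : gme K R W (y (n * c + (j + 1))) c = ge K W (y (n * c + (j + 1))) c := by
        unfold gme
        rw [if_pos hin]
      rw [h1] at hj'
      have h2 := amax_spec (fun i => toLex (W c (cfg (scl K (y (n * c + (j + 1))))) i,
        ordP (cfg (scl K (y (n * c + (j + 1)))) i))) l
      have h3 := Prod.Lex.monotone_fst _ _ h2
      simp only [ofLex_toLex] at h3
      unfold ge at hj'
      rw [hj'] at h3
      exact h3

/-- compactness -/
theorem cpt {n d : ℕ} {F : Type*} [Finite F] (u : ℕ → Fin n → Fin d → ℝ) (Q : ℕ → F)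
    (hu : ∀ m i c, |u m i c| ≤ 2 * n) :
    ∃ (u0 : Fin n → Fin d → ℝ) (Q0 : F) (φ : ℕ → ℕ), StrictMono φ ∧
      Filter.Tendsto (fun m => u (φ m)) Filter.atTop (nhds u0) ∧
      (∀ i c, |u0 i c| ≤ 2 * n) ∧ ∀ m, Q (φ m) = Q0 := by
  obtain ⟨Q0, hQ0⟩ := Finite.exists_infinite_fiber Q
  have hfr : ∃ᶠ m in Filter.atTop, Q m = Q0 := by
    rw [Nat.frequently_atTop_iff_infinite]
    exact Set.infinite_coe_iff.mp hQ0
  obtain ⟨φ1, hφ1, hQ1⟩ := Filter.extraction_of_frequently_atTop hfr
  have hcomp : IsCompact {u : Fin n → Fin d → ℝ | ∀ i c, |u i c| ≤ 2 * n} := by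
    have : {u : Fin n → Fin d → ℝ | ∀ i c, |u i c| ≤ 2 * n} =
        Set.pi Set.univ (fun _ : Fin n => Set.pi Set.univ (fun _ : Fin d =>
          Set.Icc (-(2 * n : ℝ)) (2 * n))) := by
      ext u
      simp only [Set.mem_ofPred_eq, Set.mem_pi, Set.mem_univ, forall_true_left, Set.mem_Icc,
        abs_le]
    rw [this]
    exact isCompact_univ_pi (fun _ => isCompact_univ_pi (fun _ => isCompact_Icc))
  obtain ⟨u0, hu0, φ2, hφ2, hlim⟩ := hcomp.tendsto_subseq (x := fun m => u (φ1 m))
    (fun m => hu (φ1 m))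
  exact ⟨u0, Q0, fun m => φ1 (φ2 m), hφ1.comp hφ2, hlim, hu0, fun m => hQ1 (φ2 m)⟩

/-- exact equalization -/
theorem equalize (n d : ℕ) (hn : IsPrimePow n) (hd : 0 < d)
    (W : Fin d → (Fin n → P d) → Fin n → ℝ) (hW : Equi W)
    (hc : ∀ c i, ∀ x : Fin n → P d, Function.Injective x →
      ContinuousAt (fun z : Fin n → P d => W c z i) x) :
    ∃ u : Fin n → Fin d → ℝ, (∀ i c, |u i c| ≤ 2 * n) ∧
      ∀ c i l, W c (cfg u) i = W c (cfg u) l := by
  classical
  obtain ⟨p, k, hp, hk, hpk⟩ := (isPrimePow_nat_iff n).mp hn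
  have hn2 : 2 ≤ n := hn.two_le
  have : NeZero n := ⟨by omega⟩
  have hstep := fun m : ℕ => stepE p k n d hp hpk.symm hn2 hd (2 * n + 1 + m) (by omega) W hW
  choose u hu z hz1 hz2 using hstep
  obtain ⟨u0, _, φ, hφ, hlu, hu0, _⟩ := cpt u (fun _ => ()) hu
  have hxinj : Function.Injective (cfg u0) := Pool.Agent.H58.EF.EF7a u0
  refine ⟨u0, hu0, ?_⟩
  have key : ∀ c i l, W c (cfg u0) l ≤ W c (cfg u0) i := by
    intro c i l
    have hzl : Filter.Tendsto (fun m => z (φ m) c i) Filter.atTop (nhds u0) := by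
      rw [tendsto_iff_dist_tendsto_zero]
      have h1 : Filter.Tendsto (fun m => 1 / ((2 * n + 1 + φ m : ℕ) : ℝ) + dist (u (φ m)) u0)
          Filter.atTop (nhds 0) := by
        rw [show (0 : ℝ) = 0 + 0 by ring]
        apply Filter.Tendsto.add
        · have h2 : Filter.Tendsto (fun m : ℕ => 2 * n + 1 + φ m) Filter.atTop Filter.atTop :=
            Filter.tendsto_atTop_mono (fun m => by omega) hφ.tendsto_atTop
          exact tendsto_one_div_atTop_nhds_zero_nat.comp h2
        · exact tendsto_iff_dist_tendsto_zero.mp hlu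
      apply squeeze_zero (fun _ => dist_nonneg) _ h1
      intro m
      refine le_trans (dist_triangle _ (u (φ m)) _) ?_
      gcongr
      exact hz1 (φ m) c i
    have hcont : ∀ j, Filter.Tendsto (fun m => W c (cfg (z (φ m) c i)) j) Filter.atTop
        (nhds (W c (cfg u0) j)) := by
      intro j
      have h1 : ContinuousAt (fun u : Fin n → Fin d → ℝ => W c (cfg u) j) u0 :=
        ContinuousAt.comp (f := cfg) (g := fun z => W c z j) (hc c j _ hxinj)
          (Pool.Agent.H58.EF.EF7b (n := n) (d := d)).continuousAt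
      exact h1.tendsto.comp hzl
    exact le_of_tendsto_of_tendsto' (hcont l) (hcont i) (fun m => hz2 (φ m) c i l)
  intro c i l
  exact le_antisymm (key c l i) (key c i l)

end Pool.Agent.H53.EFG
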