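import Pool.Agent.H53.EFG.Mul
import Pool.Agent.H41.EF.Pieces

/-!
Hierarchically envy-free convex partitions for every number of pieces (MP_fa8b7d_co).
-/

namespace Pool.Agent.H53.EFG

open Finset Pool.Agent.H62.EF MeasureTheory

/-- one level -/
theorem outer (n d : ℕ) (hn : IsPrimePow n) (hd : 0 < d) (b : Fin d → ℕ) (ι : Fin d → Type)
    [∀ r, Fintype (ι r)] (hι : ∀ r, Fintype.card (ι r) = b r * n)
    (μ : ∀ r, ι r → Measure (EuclideanSpace ℝ (Fin d)))
    (hμ : ∀ r i, IsProbabilityMeasure (μ r i))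
    (hac : ∀ r i, (μ r i).AbsolutelyContinuous volume) :
    ∃ C : Fin n → Set (EuclideanSpace ℝ (Fin d)),
      (∀ i, Convex ℝ (C i)) ∧ (∀ i, IsClosed (C i)) ∧ (⋃ i, C i) = Set.univ ∧
      (∀ i j, i ≠ j → Disjoint (interior (C i)) (interior (C j))) ∧
      ∀ r, ∃ π : ι r → Fin n, (∀ j, Nat.card {i // π i = j} = b r) ∧
        (∀ i j, μ r i (C j) ≤ μ r i (C (π i))) ∧ ∀ i, 1 ≤ (n : ENNReal) * μ r i (C (π i)) := by
  obtain ⟨x, hx, hπ⟩ := multi n d hn hd b ι hι (fun r i s => (μ r i s).toReal) (by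
    intro r i j x hx
    have := hμ r i
    have h1 := Pool.Agent.H41.EF.EF6e (μ r i) (hac r i) x hx j
    exact (ENNReal.tendsto_toReal (measure_ne_top _ _)).comp h1)
  have hcov := Pool.Agent.H41.EF.EF6c hn.pos x
  refine ⟨piece x, Pool.Agent.H41.EF.EF6a x, Pool.Agent.H41.EF.EF6b x, hcov, ?_, ?_⟩
  · intro i j hij
    exact Pool.Agent.H41.EF.EF6d x hx i j hij
  · intro r
    obtain ⟨π, hπ1, hπ2⟩ := hπ r
    have key : ∀ i j, μ r i (piece x j) ≤ μ r i (piece x (π i)) := by
      intro i j
      have := hμ r i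
      exact (ENNReal.toReal_le_toReal (measure_ne_top _ _) (measure_ne_top _ _)).mp (hπ2 i j)
    refine ⟨π, hπ1, key, ?_⟩
    intro i
    have := hμ r i
    have h1 : (1 : ENNReal) = μ r i (⋃ j, piece x j) := by
      rw [hcov]
      exact measure_univ.symm
    rw [h1]
    refine le_trans (measure_iUnion_le _) ?_
    rw [tsum_fintype]
    refine le_trans (Finset.sum_le_sum (fun j _ => key i j)) ?_
    rw [Finset.sum_const, Finset.card_univ, Fintype.card_fin, nsmul_eq_mul]

/-- the union of the pieces whose address agrees with `y` in the first coordinates up to `t` -/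
def Grp {d s : ℕ} {q : Fin s → ℕ} (C : (∀ t, Fin (q t)) → Set (EuclideanSpace ℝ (Fin d)))
    (y : ∀ t, Fin (q t)) (t : Fin s) : Set (EuclideanSpace ℝ (Fin d)) :=
  ⋃ z ∈ {z : ∀ t, Fin (q t) | ∀ u ≤ t, z u = y u}, C z

theorem mem_Grp {d s : ℕ} {q : Fin s → ℕ} (C : (∀ t, Fin (q t)) → Set (EuclideanSpace ℝ (Fin d)))
    (y : ∀ t, Fin (q t)) (t : Fin s) (p : EuclideanSpace ℝ (Fin d)) :
    p ∈ Grp C y t ↔ ∃ z : ∀ t, Fin (q t), (∀ u ≤ t, z u = y u) ∧ p ∈ C z := by
  unfold Grp
  simp only [Set.mem_iUnion, Set.mem_ofPred_eq, exists_prop]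

/-- two levels put together -/
def join {d s : ℕ} {q : Fin (s + 1) → ℕ} (C0 : Fin (q 0) → Set (EuclideanSpace ℝ (Fin d)))
    (C' : Fin (q 0) → (∀ t : Fin s, Fin (q t.succ)) → Set (EuclideanSpace ℝ (Fin d)))
    (z : ∀ t, Fin (q t)) : Set (EuclideanSpace ℝ (Fin d)) :=
  C0 (z 0) ∩ C' (z 0) (Fin.tail z)

theorem join_cons {d s : ℕ} {q : Fin (s + 1) → ℕ}
    (C0 : Fin (q 0) → Set (EuclideanSpace ℝ (Fin d)))
    (C' : Fin (q 0) → (∀ t : Fin s, Fin (q t.succ)) → Set (EuclideanSpace ℝ (Fin d)))
    (j : Fin (q 0)) (a : ∀ t : Fin s, Fin (q t.succ)) :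
    join C0 C' (Fin.cons (α := fun t => Fin (q t)) j a) = C0 j ∩ C' j a := by
  unfold join
  rw [Fin.cons_zero, Fin.tail_cons]

theorem Grp_zero {d s : ℕ} {q : Fin (s + 1) → ℕ}
    (C0 : Fin (q 0) → Set (EuclideanSpace ℝ (Fin d)))
    (C' : Fin (q 0) → (∀ t : Fin s, Fin (q t.succ)) → Set (EuclideanSpace ℝ (Fin d)))
    (hC' : ∀ j, (⋃ a, C' j a) = Set.univ)
    (j : Fin (q 0)) (a : ∀ t : Fin s, Fin (q t.succ)) :
    Grp (join C0 C') (Fin.cons (α := fun t => Fin (q t)) j a) 0 = C0 j := by
  ext p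
  rw [mem_Grp]
  constructor
  · rintro ⟨z, hz, hp⟩
    have h1 := hz 0 le_rfl
    rw [Fin.cons_zero] at h1
    rw [← h1]
    exact hp.1
  · intro hp
    have h1 : p ∈ ⋃ a, C' j a := by rw [hC']; exact Set.mem_univ _
    obtain ⟨a', ha'⟩ := Set.mem_iUnion.mp h1
    refine ⟨Fin.cons (α := fun t => Fin (q t)) j a', ?_, ?_⟩
    · intro u hu
      have : u = 0 := le_antisymm hu (Fin.zero_le _)
      rw [this, Fin.cons_zero, Fin.cons_zero]
    · rw [join_cons]
      exact ⟨hp, ha'⟩

theorem Grp_succ {d s : ℕ} {q : Fin (s + 1) → ℕ}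
    (C0 : Fin (q 0) → Set (EuclideanSpace ℝ (Fin d)))
    (C' : Fin (q 0) → (∀ t : Fin s, Fin (q t.succ)) → Set (EuclideanSpace ℝ (Fin d)))
    (j : Fin (q 0)) (a : ∀ t : Fin s, Fin (q t.succ)) (t : Fin s) :
    Grp (join C0 C') (Fin.cons (α := fun t => Fin (q t)) j a) t.succ =
      Grp (C' j) a t ∩ C0 j := by
  ext p
  rw [Set.mem_inter_iff, mem_Grp, mem_Grp]
  constructor
  · rintro ⟨z, hz, hp⟩
    have h1 := hz 0 (Fin.zero_le _)
    rw [Fin.cons_zero] at h1
    refine ⟨⟨Fin.tail z, ?_, ?_⟩, ?_⟩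
    · intro u hu
      have h2 := hz u.succ (Fin.succ_le_succ_iff.mpr hu)
      rw [Fin.cons_succ] at h2
      exact h2
    · rw [← h1]
      exact hp.2
    · rw [← h1]
      exact hp.1
  · rintro ⟨⟨z, hz, hp⟩, hp0⟩
    refine ⟨Fin.cons (α := fun t => Fin (q t)) j z, ?_, ?_⟩
    · intro u hu
      refine Fin.cases ?_ ?_ u hu
      · intro _
        rw [Fin.cons_zero, Fin.cons_zero]
      · intro u' hu'
        rw [Fin.cons_succ, Fin.cons_succ]
        exact hz u' (Fin.succ_le_succ_iff.mp hu')
    · rw [join_cons]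
      exact ⟨hp0, hp⟩

/-- the induction -/
theorem hier (d : ℕ) (hd : 0 < d) : ∀ (s : ℕ) (q : Fin s → ℕ), (∀ t, IsPrimePow (q t)) →
    ∀ (b : Fin d → ℕ) (ι : Fin d → Type) [∀ r, Fintype (ι r)],
    (∀ r, Fintype.card (ι r) = b r * ∏ t, q t) →
    ∀ μ : ∀ r, ι r → Measure (EuclideanSpace ℝ (Fin d)),
    (∀ r i, IsProbabilityMeasure (μ r i)) →
    (∀ r i, (μ r i).AbsolutelyContinuous volume) →
    ∃ C : (∀ t, Fin (q t)) → Set (EuclideanSpace ℝ (Fin d)),
      (∀ x, Convex ℝ (C x)) ∧ (∀ x, IsClosed (C x)) ∧ (⋃ x, C x) = Set.univ ∧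
      (∀ x y, x ≠ y → Disjoint (interior (C x)) (interior (C y))) ∧
      ∀ r, ∃ π : ι r → ∀ t, Fin (q t), (∀ x, Nat.card {i // π i = x} = b r) ∧
        (∀ i t y, (∀ u < t, y u = π i u) → μ r i (Grp C y t) ≤ μ r i (Grp C (π i) t)) ∧
        (∀ i, 1 ≤ ((∏ t, q t : ℕ) : ENNReal) * μ r i (C (π i))) ∧
        (∀ i t y, (∀ u < t, y u = π i u) →
          μ r i (C y) ≤ ((∏ u, if t < u then q u else 1 : ℕ) : ENNReal) * μ r i (C (π i))) := by
  classical
  intro s
  induction s with
  | zero =>
    intro q hq b ι _ hι μ hμ hac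
    refine ⟨fun _ => Set.univ, fun _ => convex_univ, fun _ => isClosed_univ, ?_, ?_, ?_⟩
    · exact Set.iUnion_const _
    · intro x y hxy
      exact absurd (Subsingleton.elim x y) hxy
    · intro r
      refine ⟨fun _ t => t.elim0, ?_, ?_, ?_, ?_⟩
      · intro x
        have e1 : {i : ι r // (fun t : Fin 0 => (t.elim0 : Fin (q t))) = x} ≃ ι r :=
          Equiv.subtypeUnivEquiv (fun i => Subsingleton.elim _ _)
        rw [Nat.card_congr e1, Nat.card_eq_fintype_card, hι r]
        simp
      · intro i t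
        exact t.elim0
      · intro i
        have := hμ r i
        simp
      · intro i t
        exact t.elim0
  | succ s ih =>
    intro q hq b ι _ hι μ hμ hac
    have hι' : ∀ r, Fintype.card (ι r) = (b r * ∏ t : Fin s, q t.succ) * q 0 := by
      intro r
      rw [hι r, Fin.prod_univ_succ]
      ring
    obtain ⟨C0, hC1, hC2, hC3, hC4, hC5⟩ := outer (q 0) d (hq 0) hd
      (fun r => b r * ∏ t : Fin s, q t.succ) ι hι' μ hμ hac
    choose π0 hπ1 hπ2 hπ3 using hC5
    -- positivity of the blocks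
    have hpos : ∀ r i, μ r i (C0 (π0 r i)) ≠ 0 := by
      intro r i h0
      have := hπ3 r i
      rw [h0, mul_zero] at this
      exact absurd this (by simp)
    have htop : ∀ r i (S : Set (EuclideanSpace ℝ (Fin d))), μ r i S ≠ ⊤ := by
      intro r i S
      have := hμ r i
      exact measure_ne_top _ _
    -- inner partitions
    have hin := fun j : Fin (q 0) => ih (fun t => q t.succ) (fun t => hq t.succ) b
      (fun r => {i : ι r // π0 r i = j}) (fun r => by
        have := hπ1 r j
        rw [Nat.card_eq_fintype_card] at this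
        rw [← this])
      (fun r i => (μ r i.1 (C0 j))⁻¹ • (μ r i.1).restrict (C0 j))
      (by
        rintro r ⟨i, hi⟩
        constructor
        rw [Measure.smul_apply, Measure.restrict_apply_univ, smul_eq_mul]
        subst hi
        exact ENNReal.inv_mul_cancel (hpos r i) (htop r i _))
      (by
        rintro r ⟨i, hi⟩
        apply Measure.AbsolutelyContinuous.smul_left
        exact (Measure.absolutelyContinuous_of_le Measure.restrict_le_self).trans (hac r i))
    choose C' hC'1 hC'2 hC'3 hC'4 hC'5 using hin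
    choose π' hπ'1 hπ'2 hπ'3 hπ'4 using hC'5
    have happ : ∀ r i (S : Set (EuclideanSpace ℝ (Fin d))),
        ((μ r i (C0 (π0 r i)))⁻¹ • (μ r i).restrict (C0 (π0 r i))) S =
        (μ r i (C0 (π0 r i)))⁻¹ * μ r i (S ∩ C0 (π0 r i)) := by
      intro r i S
      rw [Measure.smul_apply, Measure.restrict_apply' (hC2 _).measurableSet, smul_eq_mul]
    have hinv0 : ∀ r i, (μ r i (C0 (π0 r i)))⁻¹ ≠ 0 := fun r i =>
      ENNReal.inv_ne_zero.mpr (htop r i _)
    have hinvt : ∀ r i, (μ r i (C0 (π0 r i)))⁻¹ ≠ ⊤ := fun r i =>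
      ENNReal.inv_ne_top.mpr (hpos r i)
    refine ⟨join C0 C', ?_, ?_, ?_, ?_, ?_⟩
    · intro x
      exact (hC1 _).inter (hC'1 _ _)
    · intro x
      exact (hC2 _).inter (hC'2 _ _)
    · rw [Set.eq_univ_iff_forall]
      intro p
      have h1 : p ∈ ⋃ j, C0 j := by rw [hC3]; exact Set.mem_univ _
      obtain ⟨j, hj⟩ := Set.mem_iUnion.mp h1
      have h2 : p ∈ ⋃ a, C' j a := by rw [hC'3]; exact Set.mem_univ _
      obtain ⟨a, ha⟩ := Set.mem_iUnion.mp h2
      refine Set.mem_iUnion.mpr ⟨Fin.cons (α := fun t => Fin (q t)) j a, ?_⟩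
      rw [join_cons]
      exact ⟨hj, ha⟩
    · intro x y
      refine Fin.consCases (fun j a => ?_) x
      refine Fin.consCases (fun j' a' => ?_) y
      intro hxy
      rw [join_cons, join_cons]
      by_cases hj : j = j'
      · subst hj
        have ha : a ≠ a' := fun h => hxy (by rw [h])
        exact (hC'4 j a a' ha).mono (interior_mono Set.inter_subset_right)
          (interior_mono Set.inter_subset_right)
      · exact (hC4 j j' hj).mono (interior_mono Set.inter_subset_left)
          (interior_mono Set.inter_subset_left)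
    · intro r
      have hown : ∀ i, join C0 C' (Fin.cons (α := fun t => Fin (q t)) (π0 r i)
          (π' (π0 r i) r ⟨i, rfl⟩)) = C' (π0 r i) (π' (π0 r i) r ⟨i, rfl⟩) ∩ C0 (π0 r i) := by
        intro i
        rw [join_cons, Set.inter_comm]
      have hblk : ∀ i, μ r i (C0 (π0 r i)) ≤ ((∏ t : Fin s, q t.succ : ℕ) : ENNReal) *
          μ r i (C' (π0 r i) (π' (π0 r i) r ⟨i, rfl⟩) ∩ C0 (π0 r i)) := by
        intro i
        have h1 := hπ'3 (π0 r i) r ⟨i, rfl⟩
        simp only [happ] at h1
        have h2 := mul_le_mul_right h1 (μ r i (C0 (π0 r i)))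
        rw [mul_one] at h2
        refine le_trans h2 (le_of_eq ?_)
        rw [mul_left_comm, ← mul_assoc (μ r i (C0 (π0 r i))),
          ENNReal.mul_inv_cancel (hpos r i) (htop r i _), one_mul]
      refine ⟨fun i => Fin.cons (α := fun t => Fin (q t)) (π0 r i) (π' (π0 r i) r ⟨i, rfl⟩),
        ?_, ?_, ?_, ?_⟩
      · intro x
        refine Fin.consCases (fun j a => ?_) x
        rw [← hπ'1 j r a]
        apply Nat.card_congr
        refine
          { toFun := fun i => ⟨⟨i.1, (Fin.cons_inj.mp i.2).1⟩, ?_⟩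
            invFun := fun i => ⟨i.1.1, ?_⟩
            left_inv := fun i => rfl
            right_inv := fun i => rfl }
        · obtain ⟨i, hi⟩ := i
          obtain ⟨h1, h2⟩ := Fin.cons_inj.mp hi
          subst h1
          exact h2
        · obtain ⟨⟨i, h1⟩, h2⟩ := i
          subst h1
          exact Fin.cons_inj.mpr ⟨rfl, h2⟩
      · intro i t y
        refine Fin.consCases (fun j a => ?_) y
        refine Fin.cases ?_ (fun t' => ?_) t
        · intro _
          rw [Grp_zero C0 C' hC'3, Grp_zero C0 C' hC'3]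
          exact hπ2 r i j
        · intro hy
          have hj : j = π0 r i := by
            have := hy 0 (Fin.succ_pos _)
            rw [Fin.cons_zero] at this
            exact this
          subst hj
          rw [Grp_succ, Grp_succ]
          have h1 := hπ'2 (π0 r i) r ⟨i, rfl⟩ t' a (by
            intro u hu
            have := hy u.succ (Fin.succ_lt_succ_iff.mpr hu)
            rw [Fin.cons_succ] at this
            exact this)
          simp only [happ] at h1
          exact (ENNReal.mul_le_mul_iff_right (hinv0 r i) (hinvt r i)).mp h1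
      · intro i
        rw [hown i, Fin.prod_univ_succ]
        push_cast
        rw [mul_assoc]
        refine le_trans (hπ3 r i) ?_
        have := hblk i
        push_cast at this
        gcongr
      · intro i t y
        refine Fin.consCases (fun j a => ?_) y
        rw [hown i, join_cons]
        refine Fin.cases ?_ (fun t' => ?_) t
        · intro _
          rw [Fin.prod_univ_succ]
          simp only [lt_irrefl, if_false, Fin.succ_pos, if_true, one_mul]
          refine le_trans (measure_mono Set.inter_subset_left) ?_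
          exact le_trans (hπ2 r i j) (hblk i)
        · intro hy
          have hj : j = π0 r i := by
            have := hy 0 (Fin.succ_pos _)
            rw [Fin.cons_zero] at this
            exact this
          subst hj
          rw [Fin.prod_univ_succ]
          have h1 := hπ'4 (π0 r i) r ⟨i, rfl⟩ t' a (by
            intro u hu
            have := hy u.succ (Fin.succ_lt_succ_iff.mpr hu)
            rw [Fin.cons_succ] at this
            exact this)
          simp only [happ] at h1
          rw [mul_left_comm] at h1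
          have h2 := (ENNReal.mul_le_mul_iff_right (hinv0 r i) (hinvt r i)).mp h1
          have h0 : ¬ (t'.succ < (0 : Fin (s + 1))) := by simp
          simp only [h0, if_false, one_mul, Fin.succ_lt_succ_iff]
          rw [Set.inter_comm]
          exact h2

end Pool.Agent.H53.EFG
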