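import Pool.Agent.H53.EFG.Two
import Pool.Agent.H53.EFG.Hier

/-!
Partition into a prime power number `q` of blocks with a rounding rule `R` (MP_fa8b7d_co).
-/

namespace Pool.Agent.H53.EFG

open Finset Pool.Agent.H62.EF MeasureTheory

/-- soft assignments to `q` blocks, the same total weight for every block -/
theorem soft (n d : ℕ) (hn : IsPrimePow n) (hd : 0 < d) (ι : Fin d → Type)
    [∀ r, Fintype (ι r)]
    (w : ∀ r, ι r → Set (EuclideanSpace ℝ (Fin d)) → ℝ)
    (hw : ∀ r i j, ∀ x : Fin n → P d, Function.Injective x →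
      ContinuousAt (fun z : Fin n → P d => w r i (piece z j)) x) (ε : ℝ) (hε : 0 < ε) :
    ∃ (u : Fin n → Fin d → ℝ) (A : ∀ r, ι r → Fin n → ℝ), (∀ i c, |u i c| ≤ 2 * n) ∧
      (∀ r i j, 0 ≤ A r i j) ∧ (∀ r i, ∑ j, A r i j = 1) ∧
      (∀ r j, ∑ i, A r i j = (Fintype.card (ι r) : ℝ) / n) ∧
      ∀ r i j, 0 < A r i j →
        ∀ k, w r i (piece (cfg u) k) ≤ w r i (piece (cfg u) j) + ε := by
  classical
  have hn2 : 2 ≤ n := hn.two_le
  have : NeZero n := ⟨by omega⟩
  have hn0 : (n : ℝ) ≠ 0 := by exact_mod_cast NeZero.ne n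
  obtain ⟨u, hu, he⟩ := equalize n d hn hd
    (fun r x j => ∑ i : ι r, wt ε (fun k => w r i (piece x k)) j /
      ∑ l, wt ε (fun k => w r i (piece x k)) l) (by
      intro c x h j
      simp only [piece_perm]
      apply Finset.sum_congr rfl
      intro i _
      have e1 : ∀ l, wt ε (fun k => w c i (piece x (h.symm k))) l =
          wt ε (fun k => w c i (piece x k)) (h.symm l) :=
        fun l => wt_perm ε (fun k => w c i (piece x k)) h l
      rw [e1, Finset.sum_congr rfl (fun l _ => e1 l)]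
      rw [Equiv.sum_comp h.symm (fun l => wt ε (fun k => w c i (piece x k)) l)]) (by
      intro c j x hx
      have hwt : ∀ (i : ι c) (l : Fin n), Filter.Tendsto
          (fun z : Fin n → P d => wt ε (fun k => w c i (piece z k)) l) (nhds x)
          (nhds (wt ε (fun k => w c i (piece x k)) l)) := by
        intro i l
        unfold wt
        apply tendsto_finsetProd
        intro k _
        apply Filter.Tendsto.max tendsto_const_nhds
        exact ((tendsto_const_nhds).add (hw c i l x hx)).sub (hw c i k x hx)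
      apply tendsto_finsetSum
      intro i _
      exact (hwt i j).div (tendsto_finsetSum _ (fun l _ => hwt i l)) (wt_sum_pos hε _).ne')
  have hpos : ∀ (r : Fin d) (i : ι r), 0 < ∑ l, wt ε (fun k => w r i (piece (cfg u) k)) l :=
    fun r i => wt_sum_pos hε _
  refine ⟨u, fun r i j => wt ε (fun k => w r i (piece (cfg u) k)) j /
    ∑ l, wt ε (fun k => w r i (piece (cfg u) k)) l, hu, ?_, ?_, ?_, ?_⟩
  · intro r i j
    exact div_nonneg (wt_nonneg _ _ _) (hpos r i).le
  · intro r i
    rw [← Finset.sum_div]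
    exact div_self (hpos r i).ne'
  · intro r j
    have h1 : ∑ l : Fin n, ∑ i : ι r, wt ε (fun k => w r i (piece (cfg u) k)) l /
        ∑ l, wt ε (fun k => w r i (piece (cfg u) k)) l = (Fintype.card (ι r) : ℝ) := by
      rw [Finset.sum_comm]
      have : ∀ i : ι r, ∑ l : Fin n, wt ε (fun k => w r i (piece (cfg u) k)) l /
          ∑ l, wt ε (fun k => w r i (piece (cfg u) k)) l = 1 := by
        intro i
        rw [← Finset.sum_div]
        exact div_self (hpos r i).ne'
      rw [Finset.sum_congr rfl (fun i _ => this i)]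
      simp
    have h2 : ∀ l : Fin n, ∑ i : ι r, wt ε (fun k => w r i (piece (cfg u) k)) l /
        ∑ l, wt ε (fun k => w r i (piece (cfg u) k)) l = ∑ i : ι r,
        wt ε (fun k => w r i (piece (cfg u) k)) j /
        ∑ l, wt ε (fun k => w r i (piece (cfg u) k)) l := fun l => he r l j
    rw [Finset.sum_congr rfl (fun l _ => h2 l)] at h1
    simp only [Finset.sum_const, Finset.card_univ, nsmul_eq_mul, Fintype.card_fin] at h1
    rw [eq_div_iff hn0, mul_comm]
    exact h1
  · intro r i j h k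
    have h2 : 0 < wt ε (fun k => w r i (piece (cfg u) k)) j := by
      by_contra hcon
      have h3 : wt ε (fun k => w r i (piece (cfg u) k)) j = 0 :=
        le_antisymm (not_lt.mp hcon) (wt_nonneg _ _ _)
      simp only [h3, zero_div, lt_irrefl] at h
    exact (wt_lt h2 k).le

/-- blocks, with a rounding rule `R` -/
theorem blocks (q d : ℕ) (hq : IsPrimePow q) (hd : 0 < d) (ι : Fin d → Type)
    [∀ r, Fintype (ι r)] (R : (∀ r, ι r → Fin q) → Prop)
    (hR : ∀ A : ∀ r, ι r → Fin q → ℝ, (∀ r i j, 0 ≤ A r i j) → (∀ r i, ∑ j, A r i j = 1) →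
      (∀ r j, ∑ i, A r i j = (Fintype.card (ι r) : ℝ) / q) →
      ∃ π : ∀ r, ι r → Fin q, R π ∧ ∀ r i, 0 < A r i (π r i))
    (μ : ∀ r, ι r → Measure (EuclideanSpace ℝ (Fin d)))
    (hμ : ∀ r i, IsProbabilityMeasure (μ r i))
    (hac : ∀ r i, (μ r i).AbsolutelyContinuous volume) :
    ∃ (x : Fin q → P d) (π : ∀ r, ι r → Fin q), Function.Injective x ∧ R π ∧
      ∀ r i j, μ r i (piece x j) ≤ μ r i (piece x (π r i)) := by
  classical
  have hw : ∀ r i j, ∀ x : Fin q → P d, Function.Injective x →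
      ContinuousAt (fun z : Fin q → P d => (μ r i (piece z j)).toReal) x := by
    intro r i j x hx
    have := hμ r i
    have h1 := Pool.Agent.H41.EF.EF6e (μ r i) (hac r i) x hx j
    exact (ENNReal.tendsto_toReal (measure_ne_top _ _)).comp h1
  have h := fun m : ℕ => soft q d hq hd ι (fun r i s => (μ r i s).toReal) hw
    (1 / ((m : ℝ) + 1)) (by positivity)
  choose u A hu hA hrow hcol hfav using h
  have h' := fun m : ℕ => hR (A m) (hA m) (hrow m) (hcol m)
  choose Q hQ1 hQ2 using h'
  obtain ⟨u0, Q0, φ, hφ, hlu, hu0, hQ0⟩ := cpt u Q hu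
  have hxinj : Function.Injective (cfg u0) := Pool.Agent.H58.EF.EF7a u0
  refine ⟨cfg u0, Q0, hxinj, ?_, ?_⟩
  · rw [← hQ0 0]
    exact hQ1 _
  · intro r i j
    have := hμ r i
    rw [← ENNReal.toReal_le_toReal (measure_ne_top _ _) (measure_ne_top _ _)]
    have hcont : ∀ j, Filter.Tendsto (fun m => (μ r i (piece (cfg (u (φ m))) j)).toReal)
        Filter.atTop (nhds ((μ r i (piece (cfg u0) j)).toReal)) := by
      intro j
      have h1 : ContinuousAt (fun u : Fin q → Fin d → ℝ => (μ r i (piece (cfg u) j)).toReal) u0 :=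
        ContinuousAt.comp (f := cfg) (g := fun z => (μ r i (piece z j)).toReal)
          (hw r i j _ hxinj) (Pool.Agent.H58.EF.EF7b (n := q) (d := d)).continuousAt
      exact h1.tendsto.comp hlu
    have h0 : Filter.Tendsto (fun m => 1 / (((φ m : ℕ) : ℝ) + 1)) Filter.atTop (nhds 0) :=
      tendsto_one_div_add_atTop_nhds_zero_nat.comp hφ.tendsto_atTop
    have h2 := (hcont (Q0 r i)).add h0
    rw [add_zero] at h2
    apply le_of_tendsto_of_tendsto' (hcont j) h2
    intro m
    have h3 := hQ2 (φ m) r i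
    rw [hQ0 m] at h3
    exact hfav (φ m) r i (Q0 r i) h3 j

/-- proportional partition for every number `c` of players, envy-free for prime powers -/
theorem propor (d : ℕ) (hd : 0 < d) (c : ℕ) (hc : 0 < c) (ι : Fin d → Type)
    [∀ r, Fintype (ι r)] (hι : ∀ r, Fintype.card (ι r) = c)
    (μ : ∀ r, ι r → Measure (EuclideanSpace ℝ (Fin d)))
    (hμ : ∀ r i, IsProbabilityMeasure (μ r i))
    (hac : ∀ r i, (μ r i).AbsolutelyContinuous volume) :
    ∃ C : Fin c → Set (EuclideanSpace ℝ (Fin d)),
      (∀ i, Convex ℝ (C i)) ∧ (∀ i, IsClosed (C i)) ∧ (⋃ i, C i) = Set.univ ∧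
      (∀ i j, i ≠ j → Disjoint (interior (C i)) (interior (C j))) ∧
      ∀ r, ∃ π : ι r → Fin c, Function.Bijective π ∧
        (∀ i, 1 ≤ (c : ENNReal) * μ r i (C (π i))) ∧
        (IsPrimePow c → ∀ i j, μ r i (C j) ≤ μ r i (C (π i))) := by
  classical
  have hbij : ∀ {κ : Type} [Fintype κ] {κ' : Type} (π : κ → κ'),
      (∀ j, Nat.card {i // π i = j} = 1) → Function.Bijective π := by
    intro κ _ κ' π h
    constructor
    · intro i i' hii
      have h1 := h (π i')
      rw [Nat.card_eq_one_iff_unique] at h1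
      exact congrArg Subtype.val (h1.1.elim ⟨i, hii⟩ ⟨i', rfl⟩)
    · intro j
      have h1 := h j
      rw [Nat.card_eq_one_iff_unique] at h1
      obtain ⟨⟨i, hi⟩⟩ := h1.2
      exact ⟨i, hi⟩
  by_cases hpp : IsPrimePow c
  · obtain ⟨C, h1, h2, h3, h4, h5⟩ := outer c d hpp hd (fun _ => 1) ι
      (fun r => by rw [hι r, one_mul]) μ hμ hac
    refine ⟨C, h1, h2, h3, h4, ?_⟩
    intro r
    obtain ⟨π, hπ1, hπ2, hπ3⟩ := h5 r
    exact ⟨π, hbij π hπ1, hπ3, fun _ => hπ2⟩
  · -- prime factors
    set L := c.primeFactorsList with hL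
    have hprod : ∏ t : Fin L.length, L.get t = c := by
      have := Nat.prod_primeFactorsList hc.ne'
      rw [← hL] at this
      rw [← List.prod_ofFn, List.ofFn_get, this]
    obtain ⟨C, h1, h2, h3, h4, h5⟩ := hier d hd L.length (fun t => L.get t) (by
      intro t
      have : L.get t ∈ L := List.get_mem L t
      exact (Nat.prime_of_mem_primeFactorsList this).isPrimePow) (fun _ => 1) ι (by
      intro r
      rw [hι r, one_mul]
      exact hprod.symm) μ hμ hac
    have hcard : Fintype.card (∀ t : Fin L.length, Fin (L.get t)) = c := by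
      rw [Fintype.card_pi]
      simp only [Fintype.card_fin]
      exact hprod
    let e : (∀ t : Fin L.length, Fin (L.get t)) ≃ Fin c := Fintype.equivFinOfCardEq hcard
    refine ⟨fun j => C (e.symm j), fun j => h1 _, fun j => h2 _, ?_, ?_, ?_⟩
    · rw [← h3]
      exact e.symm.surjective.iUnion_comp C
    · intro i j hij
      exact h4 _ _ (fun h => hij (e.symm.injective h))
    · intro r
      obtain ⟨π, hπ1, hπ2, hπ3, hπ4⟩ := h5 r
      refine ⟨fun i => e (π i), e.bijective.comp (hbij π hπ1), ?_, fun h => absurd h hpp⟩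
      intro i
      have := hπ3 i
      rw [hprod] at this
      simp only [Equiv.symm_apply_apply]
      exact this

/-- a surjection of the families -/
def fam {m d : ℕ} (hm : 0 < m) (r : Fin d) : Fin m := ⟨min r (m - 1), by omega⟩

theorem fam_castLE {m d : ℕ} (hm : 0 < m) (hmd : m ≤ d) (r : Fin m) :
    fam hm (Fin.castLE hmd r) = r := by
  apply Fin.ext
  unfold fam
  simp only [Fin.val_castLE]
  have := r.isLt
  omega

/-- `m ≤ d` families -/
theorem proporM (m d : ℕ) (hm : 0 < m) (hmd : m ≤ d) (c : ℕ) (hc : 0 < c) (ι : Fin m → Type)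
    [∀ r, Fintype (ι r)] (hι : ∀ r, Fintype.card (ι r) = c)
    (μ : ∀ r, ι r → Measure (EuclideanSpace ℝ (Fin d)))
    (hμ : ∀ r i, IsProbabilityMeasure (μ r i))
    (hac : ∀ r i, (μ r i).AbsolutelyContinuous volume) :
    ∃ C : Fin c → Set (EuclideanSpace ℝ (Fin d)),
      (∀ i, Convex ℝ (C i)) ∧ (∀ i, IsClosed (C i)) ∧ (⋃ i, C i) = Set.univ ∧
      (∀ i j, i ≠ j → Disjoint (interior (C i)) (interior (C j))) ∧
      ∀ r, ∃ π : ι r → Fin c, Function.Bijective π ∧
        (∀ i, 1 ≤ (c : ENNReal) * μ r i (C (π i))) ∧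
        (IsPrimePow c → ∀ i j, μ r i (C j) ≤ μ r i (C (π i))) := by
  obtain ⟨C, h1, h2, h3, h4, h5⟩ := propor d (by omega) c hc (fun r => ι (fam hm r))
    (fun r => hι _) (fun r i => μ (fam hm r) i) (fun r i => hμ _ _) (fun r i => hac _ _)
  refine ⟨C, h1, h2, h3, h4, ?_⟩
  intro r
  have h := h5 (Fin.castLE hmd r)
  have e := fam_castLE hm hmd r
  generalize fam hm (Fin.castLE hmd r) = r' at h e
  subst e
  exact h

/-- blocks for `m ≤ d` families -/
theorem blocksM (q n m d : ℕ) (hq : IsPrimePow q) (hm : 0 < m) (hmd : m ≤ d)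
    (R : (Fin m → Fin n → Fin q) → Prop)
    (hR : ∀ A : Fin m → Fin n → Fin q → ℝ, (∀ r i j, 0 ≤ A r i j) → (∀ r i, ∑ j, A r i j = 1) →
      (∀ r j, ∑ i, A r i j = (n : ℝ) / q) →
      ∃ π : Fin m → Fin n → Fin q, R π ∧ ∀ r i, 0 < A r i (π r i))
    (μ : Fin m → Fin n → Measure (EuclideanSpace ℝ (Fin d)))
    (hμ : ∀ r i, IsProbabilityMeasure (μ r i))
    (hac : ∀ r i, (μ r i).AbsolutelyContinuous volume) :
    ∃ (x : Fin q → P d) (π : Fin m → Fin n → Fin q), Function.Injective x ∧ R π ∧
      ∀ r i j, μ r i (piece x j) ≤ μ r i (piece x (π r i)) := by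
  classical
  obtain ⟨x, π, hx, hRπ, hfav⟩ := blocks q d hq (by omega) (fun _ => Fin n)
    (fun π => R (fun r => π (Fin.castLE hmd r))) (by
      intro A hA hrow hcol
      obtain ⟨π', h1, h2⟩ := hR (fun r => A (Fin.castLE hmd r)) (fun r => hA _) (fun r => hrow _)
        (by
          intro r j
          have := hcol (Fin.castLE hmd r) j
          rwa [Fintype.card_fin] at this)
      have hex : ∀ r i, ∃ j, 0 < A r i j := by
        intro r i
        by_contra hcon
        push Not at hcon
        have h3 : ∑ j, A r i j ≤ 0 := Finset.sum_nonpos (fun j _ => hcon j)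
        rw [hrow r i] at h3
        linarith
      choose π'' hπ'' using hex
      refine ⟨fun r i => if h : (r : ℕ) < m then π' ⟨r, h⟩ i else π'' r i, ?_, ?_⟩
      · have : (fun (r : Fin m) (i : Fin n) => if h : ((Fin.castLE hmd r : Fin d) : ℕ) < m then
            π' ⟨(Fin.castLE hmd r : Fin d), h⟩ i else π'' (Fin.castLE hmd r) i) = π' := by
          funext r i
          rw [dif_pos (by simp)]
          rfl
        simp only
        rw [this]
        exact h1
      · intro r i
        by_cases h : (r : ℕ) < m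
        · simp only [dif_pos h]
          exact h2 ⟨r, h⟩ i
        · simp only [dif_neg h]
          exact hπ'' r i) (fun r i => μ (fam hm r) i) (fun r i => hμ _ _) (fun r i => hac _ _)
  refine ⟨x, fun r => π (Fin.castLE hmd r), hx, hRπ, ?_⟩
  intro r i j
  have := hfav (Fin.castLE hmd r) i j
  rw [fam_castLE hm hmd r] at this
  exact this

end Pool.Agent.H53.EFG
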