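import Pool.Agent.H53.EFG.Asm

/-!
The rounding rule for `n = 0, 1, -1` modulo `q`, and for at most two families (MP_fa8b7d_co).
-/

namespace Pool.Agent.H53.EFG

open Finset Pool.Agent.H62.EF MeasureTheory

theorem rule (q n m : ℕ) (hq2 : 2 ≤ q) (hqn : q ≤ n) (hm : 0 < m)
    (hcase : m ≤ 2 ∨ n % q = 0 ∨ n % q = 1 ∨ n % q = q - 1)
    (A : Fin m → Fin n → Fin q → ℝ) (hA : ∀ r i j, 0 ≤ A r i j)
    (hrow : ∀ r i, ∑ j, A r i j = 1) (hcol : ∀ r j, ∑ i, A r i j = (n : ℝ) / q) :
    ∃ (c : Fin q → ℕ) (π : Fin m → Fin n → Fin q),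
      (∀ j, n / q ≤ c j ∧ c j ≤ (n + q - 1) / q) ∧
      (∀ r j, Nat.card {i // π r i = j} = c j) ∧ ∀ r i, 0 < A r i (π r i) := by
  classical
  have : NeZero q := ⟨by omega⟩
  have hq : (0 : ℝ) < q := by exact_mod_cast Nat.pos_of_ne_zero (NeZero.ne q)
  have hdiv := Nat.div_add_mod n q
  have hmod := Nat.mod_lt n (Nat.pos_of_ne_zero (NeZero.ne q))
  have hcol' : ∀ r j, ∑ i, A r i j = (Fintype.card (Fin n) : ℝ) / q := by
    intro r j
    rw [Fintype.card_fin]
    exact hcol r j
  have hhi : 0 < n % q → (n + q - 1) / q = n / q + 1 := by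
    intro h
    have e1 : n + q - 1 = (n % q - 1) + q * (n / q + 1) := by
      have : q * (n / q + 1) = q * (n / q) + q := by ring
      omega
    rw [e1, Nat.add_mul_div_left _ _ (Nat.pos_of_ne_zero (NeZero.ne q)),
      Nat.div_eq_of_lt (by omega), zero_add]
  by_cases h0 : n % q = 0
  · have hhi0 : n / q ≤ (n + q - 1) / q := Nat.div_le_div_right (by omega)
    have h := fun r => hall (b := n / q) (A r) (hA r) (hrow r) (by
      intro j
      rw [hcol r j]
      have : (n : ℝ) = (q : ℝ) * ((n / q : ℕ) : ℝ) := by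
        rw [h0, add_zero] at hdiv
        exact_mod_cast hdiv.symm
      rw [div_eq_iff hq.ne', mul_comm]
      exact this)
    choose π hπ1 hπ2 using h
    exact ⟨fun _ => n / q, π, fun j => ⟨le_rfl, hhi0⟩, hπ1, hπ2⟩
  · have hhi1 := hhi (Nat.pos_of_ne_zero h0)
    rw [hhi1]
    rcases hcase with hm2 | h | h | h
    · -- at most two families
      have hβ : (n : ℝ) / q = ((n / q : ℕ) : ℝ) + ((n % q : ℕ) : ℝ) / q := by
        have : (n : ℝ) = (q : ℝ) * ((n / q : ℕ) : ℝ) + ((n % q : ℕ) : ℝ) := by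
          exact_mod_cast hdiv.symm
        rw [eq_comm, ← mul_div_cancel_left₀ (((n / q : ℕ) : ℝ)) hq.ne', ← add_div, ← this]
      have hθ1 : ((n % q : ℕ) : ℝ) / q ≤ 1 := by
        rw [div_le_one hq]
        exact_mod_cast hmod.le
      have hβ0 : (0 : ℝ) < (n : ℝ) / q := by
        apply div_pos _ hq
        exact_mod_cast (by omega : 0 < n)
      have hlast : m - 1 < m := by omega
      obtain ⟨c, π, π', hc, h1, h2, h3, h4⟩ := two q (n / q) (((n % q : ℕ) : ℝ) / q) ((n : ℝ) / q)
        (by positivity) hθ1 hβ hβ0 (A ⟨0, hm⟩) (A ⟨m - 1, hlast⟩)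
        (hA _) (hrow _) (hcol _) (hA _) (hrow _) (hcol _)
      have hr : ∀ r : Fin m, r = ⟨0, hm⟩ ∨ r = ⟨m - 1, hlast⟩ := by
        intro r
        rcases r with ⟨r, hr⟩
        rcases Nat.eq_zero_or_pos r with h | h
        · left
          exact Fin.ext h
        · right
          apply Fin.ext
          change r = m - 1
          omega
      refine ⟨c, fun r => if r = ⟨0, hm⟩ then π else π', hc, ?_, ?_⟩
      · intro r j
        by_cases h : r = ⟨0, hm⟩
        · simp only [if_pos h]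
          exact h1 j
        · simp only [if_neg h]
          exact h2 j
      · intro r i
        by_cases h : r = ⟨0, hm⟩
        · simp only [if_pos h]
          rw [h]
          exact h3 i
        · simp only [if_neg h]
          rw [(hr r).resolve_left h]
          exact h4 i
    · exact absurd h h0
    · have hn : Fintype.card (Fin n) = n / q * q + 1 := by
        rw [Fintype.card_fin, mul_comm]
        omega
      have h' := fun r => round_plus q (n / q) (A r) ⟨0, by omega⟩ hn (hA r) (hrow r) (hcol' r)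
      choose π hπ1 hπ2 using h'
      refine ⟨_, π, ?_, hπ1, hπ2⟩
      intro j
      generalize n / q = k
      split_ifs <;> omega
    · have hn : Fintype.card (Fin n) + 1 = (n / q + 1) * q := by
        rw [Fintype.card_fin, add_mul, one_mul, mul_comm (n / q)]
        omega
      have h' := fun r => round_minus q (n / q + 1) (Nat.succ_pos _) (A r) ⟨0, by omega⟩ hn (hA r)
        (hrow r) (hcol' r)
      choose π hπ1 hπ2 using h'
      refine ⟨_, π, ?_, hπ1, hπ2⟩
      intro j
      generalize n / q = k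
      split_ifs <;> omega

theorem main (q n m d : ℕ) (hq : IsPrimePow q) (hqn : q ≤ n) (hm : 0 < m) (hmd : m ≤ d)
    (hcase : m ≤ 2 ∨ n % q = 0 ∨ n % q = 1 ∨ n % q = q - 1)
    (μ : Fin m → Fin n → Measure (EuclideanSpace ℝ (Fin d)))
    (hμ : ∀ r i, IsProbabilityMeasure (μ r i))
    (hac : ∀ r i, (μ r i).AbsolutelyContinuous volume) :
    ∃ (C : Fin n → Set (EuclideanSpace ℝ (Fin d))) (g : Fin n → Fin q),
      (∀ k, Convex ℝ (C k)) ∧ (∀ k, IsClosed (C k)) ∧ (⋃ k, C k) = Set.univ ∧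
      (∀ k l, k ≠ l → Disjoint (interior (C k)) (interior (C l))) ∧
      (∀ j, n / q ≤ Nat.card {k // g k = j} ∧ Nat.card {k // g k = j} ≤ (n + q - 1) / q) ∧
      ∀ r, ∃ π : Equiv.Perm (Fin n), ∀ i,
        (∀ j, μ r i (⋃ k ∈ {k | g k = j}, C k) ≤ μ r i (⋃ k ∈ {k | g k = g (π i)}, C k)) ∧
        μ r i (⋃ k ∈ {k | g k = g (π i)}, C k) ≤
          (Nat.card {k // g k = g (π i)} : ENNReal) * μ r i (C (π i)) ∧
        (IsPrimePow (Nat.card {k // g k = g (π i)}) →
          ∀ k, g k = g (π i) → μ r i (C k) ≤ μ r i (C (π i))) ∧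
        (∀ k, μ r i (C k) ≤ (Nat.card {k // g k = g (π i)} : ENNReal) * μ r i (C (π i))) :=
  assemble q n m d hq hm hmd (n / q) ((n + q - 1) / q) (Nat.div_pos hqn hq.pos)
    (fun A hA hrow hcol => rule q n m hq.two_le hqn hm hcase A hA hrow hcol) μ hμ hac

end Pool.Agent.H53.EFG
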