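import Pool.Agent.H53.EFG.Eq

/-!
Envy-free partitions into a prime power number `n` of pieces for `b * n` players (MP_fa8b7d_co).
-/

namespace Pool.Agent.H53.EFG

open Finset Pool.Agent.H62.EF

/-- unnormalised weight of the index `j` -/
noncomputable def wt {n : ℕ} (ε : ℝ) (a : Fin n → ℝ) (j : Fin n) : ℝ :=
  ∏ k, max 0 (ε + a j - a k)

theorem wt_nonneg {n : ℕ} (ε : ℝ) (a : Fin n → ℝ) (j : Fin n) : 0 ≤ wt ε a j :=
  Finset.prod_nonneg fun _ _ => le_max_left _ _

theorem wt_lt {n : ℕ} {ε : ℝ} {a : Fin n → ℝ} {j : Fin n} (h : 0 < wt ε a j) (k : Fin n) :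
    a k < a j + ε := by
  by_contra hcon
  push Not at hcon
  have : wt ε a j = 0 := by
    unfold wt
    apply Finset.prod_eq_zero (Finset.mem_univ k)
    exact max_eq_left (by linarith)
  rw [this] at h
  exact lt_irrefl _ h

theorem wt_sum_pos {n : ℕ} [NeZero n] {ε : ℝ} (hε : 0 < ε) (a : Fin n → ℝ) :
    0 < ∑ j, wt ε a j := by
  have : Nonempty (Fin n) := ⟨⟨0, Nat.pos_of_ne_zero (NeZero.ne n)⟩⟩
  obtain ⟨j, hj⟩ := Finite.exists_max a
  apply Finset.sum_pos' (fun _ _ => wt_nonneg _ _ _)
  refine ⟨j, Finset.mem_univ j, ?_⟩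
  unfold wt
  apply Finset.prod_pos
  intro k _
  apply lt_max_of_lt_right
  have := hj k
  linarith

theorem wt_perm {n : ℕ} (ε : ℝ) (a : Fin n → ℝ) (h : Equiv.Perm (Fin n)) (j : Fin n) :
    wt ε (fun k => a (h.symm k)) j = wt ε a (h.symm j) := by
  unfold wt
  exact Equiv.prod_comp h.symm (fun k => max 0 (ε + a (h.symm j) - a k))

/-- a nonnegative matrix with row sums `1` and column sums `b` -/
theorem hall {ι : Type*} [Fintype ι] {n b : ℕ} (A : ι → Fin n → ℝ)
    (hA : ∀ i j, 0 ≤ A i j) (hrow : ∀ i, ∑ j, A i j = 1) (hcol : ∀ j, ∑ i, A i j = b) :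
    ∃ π : ι → Fin n, (∀ j, Nat.card {i // π i = j} = b) ∧ ∀ i, 0 < A i (π i) := by
  classical
  have hcard : Fintype.card ι = n * b := by
    have h1 : ∑ i, ∑ j, A i j = ∑ j, ∑ i, A i j := Finset.sum_comm
    rw [Finset.sum_congr rfl (fun i _ => hrow i), Finset.sum_congr rfl (fun j _ => hcol j)] at h1
    simp only [Finset.sum_const, Finset.card_univ, nsmul_eq_mul, mul_one, Fintype.card_fin] at h1
    exact_mod_cast h1
  obtain ⟨f, hf, hfm⟩ := (Finset.all_card_le_biUnion_card_iff_exists_injective
    (fun s : Fin n × Fin b => (Finset.univ.filter (fun i : ι => 0 < A i s.1)))).mp (by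
    intro S
    set J := S.image Prod.fst with hJ
    set N := S.biUnion (fun s : Fin n × Fin b => (Finset.univ.filter (fun i : ι => 0 < A i s.1)))
      with hN
    have h1 : S.card ≤ J.card * b := by
      have : S ⊆ J ×ˢ (Finset.univ : Finset (Fin b)) := by
        intro s hs
        rw [Finset.mem_product]
        exact ⟨Finset.mem_image_of_mem _ hs, Finset.mem_univ _⟩
      have := Finset.card_le_card this
      rwa [Finset.card_product, Finset.card_univ, Fintype.card_fin] at this
    have h2 : ((J.card * b : ℕ) : ℝ) ≤ (N.card : ℝ) := by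
      have e1 : ((J.card * b : ℕ) : ℝ) = ∑ j ∈ J, ∑ i, A i j := by
        rw [Finset.sum_congr rfl (fun j _ => hcol j)]
        simp
      have e2 : ∑ j ∈ J, ∑ i, A i j = ∑ i, ∑ j ∈ J, A i j := Finset.sum_comm
      have e3 : ∑ i ∈ N, ∑ j ∈ J, A i j = ∑ i, ∑ j ∈ J, A i j := by
        apply Finset.sum_subset (Finset.subset_univ N)
        intro i _ hi
        apply Finset.sum_eq_zero
        intro j hj
        obtain ⟨s, hs, hsj⟩ := Finset.mem_image.mp hj
        by_contra hne
        apply hi
        rw [hN, Finset.mem_biUnion]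
        refine ⟨s, hs, ?_⟩
        rw [Finset.mem_filter]
        refine ⟨Finset.mem_univ _, ?_⟩
        rw [hsj]
        exact lt_of_le_of_ne (hA i j) (fun h => hne h.symm)
      have e4 : ∑ i ∈ N, ∑ j ∈ J, A i j ≤ ∑ i ∈ N, (1 : ℝ) := by
        apply Finset.sum_le_sum
        intro i _
        rw [← hrow i]
        exact Finset.sum_le_sum_of_subset_of_nonneg (Finset.subset_univ J) (fun j _ _ => hA i j)
      rw [e1, e2, ← e3]
      refine le_trans e4 ?_
      simp
    have h3 : J.card * b ≤ N.card := by exact_mod_cast h2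
    exact h1.trans h3)
  have hbij : Function.Bijective f := by
    rw [Fintype.bijective_iff_injective_and_card]
    refine ⟨hf, ?_⟩
    rw [hcard]
    simp
  set e := Equiv.ofBijective f hbij with he
  refine ⟨fun i => (e.symm i).1, ?_, ?_⟩
  · intro j
    have e1 : {i // (e.symm i).1 = j} ≃ Fin b :=
      { toFun := fun i => (e.symm i.1).2
        invFun := fun k => ⟨e (j, k), by simp⟩
        left_inv := by
          rintro ⟨i, hi⟩
          apply Subtype.ext
          have : (j, (e.symm i).2) = e.symm i := Prod.ext hi.symm rfl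
          simp only
          rw [this, Equiv.apply_symm_apply]
        right_inv := by
          intro k
          simp }
    rw [Nat.card_congr e1, Nat.card_eq_fintype_card, Fintype.card_fin]
  · intro i
    have h1 := hfm (e.symm i)
    have h2 : f (e.symm i) = i := e.apply_symm_apply i
    rw [h2, Finset.mem_filter] at h1
    exact h1.2

/-- approximate version -/
theorem multiE (n d : ℕ) (hn : IsPrimePow n) (hd : 0 < d) (b : Fin d → ℕ) (ι : Fin d → Type)
    [∀ r, Fintype (ι r)] (hι : ∀ r, Fintype.card (ι r) = b r * n)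
    (w : ∀ r, ι r → Set (EuclideanSpace ℝ (Fin d)) → ℝ)
    (hw : ∀ r i j, ∀ x : Fin n → P d, Function.Injective x →
      ContinuousAt (fun z : Fin n → P d => w r i (piece z j)) x) (ε : ℝ) (hε : 0 < ε) :
    ∃ u : Fin n → Fin d → ℝ, (∀ i c, |u i c| ≤ 2 * n) ∧
      ∀ r, ∃ π : ι r → Fin n, (∀ j, Nat.card {i // π i = j} = b r) ∧
        ∀ i j, w r i (piece (cfg u) j) ≤ w r i (piece (cfg u) (π i)) + ε := by
  classical
  have hn2 : 2 ≤ n := hn.two_le
  have : NeZero n := ⟨by omega⟩
  have hn0 : (n : ℝ) ≠ 0 := by exact_mod_cast NeZero.ne n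
  obtain ⟨u, hu, he⟩ := equalize n d hn hd
    (fun r x j => ∑ i : ι r, wt ε (fun k => w r i (piece x k)) j /
      ∑ l, wt ε (fun k => w r i (piece x k)) l) (by
      intro c x h j
      simp only [piece_perm]
      apply Finset.sum_congr rfl
      intro i _
      have e1 : ∀ l, wt ε (fun k => w c i (piece x (h.symm k))) l =
          wt ε (fun k => w c i (piece x k)) (h.symm l) :=
        fun l => wt_perm ε (fun k => w c i (piece x k)) h l
      rw [e1, Finset.sum_congr rfl (fun l _ => e1 l)]
      rw [Equiv.sum_comp h.symm (fun l => wt ε (fun k => w c i (piece x k)) l)]) (by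
      intro c j x hx
      have hwt : ∀ (i : ι c) (l : Fin n), Filter.Tendsto
          (fun z : Fin n → P d => wt ε (fun k => w c i (piece z k)) l) (nhds x)
          (nhds (wt ε (fun k => w c i (piece x k)) l)) := by
        intro i l
        unfold wt
        apply tendsto_finsetProd
        intro k _
        apply Filter.Tendsto.max tendsto_const_nhds
        exact ((tendsto_const_nhds).add (hw c i l x hx)).sub (hw c i k x hx)
      apply tendsto_finsetSum
      intro i _
      exact (hwt i j).div (tendsto_finsetSum _ (fun l _ => hwt i l)) (wt_sum_pos hε _).ne')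
  refine ⟨u, hu, ?_⟩
  intro r
  have hpos : ∀ i : ι r, 0 < ∑ l, wt ε (fun k => w r i (piece (cfg u) k)) l :=
    fun i => wt_sum_pos hε _
  obtain ⟨π, hπ1, hπ2⟩ := hall (b := b r) (fun (i : ι r) (j : Fin n) =>
    wt ε (fun k => w r i (piece (cfg u) k)) j / ∑ l, wt ε (fun k => w r i (piece (cfg u) k)) l)
    (fun i j => div_nonneg (wt_nonneg _ _ _) (hpos i).le)
    (fun i => by
      rw [← Finset.sum_div]
      exact div_self (hpos i).ne')
    (by
      intro j
      have h1 : ∑ l : Fin n, ∑ i : ι r, wt ε (fun k => w r i (piece (cfg u) k)) l /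
          ∑ l, wt ε (fun k => w r i (piece (cfg u) k)) l = (b r : ℝ) * n := by
        rw [Finset.sum_comm]
        have : ∀ i : ι r, ∑ l : Fin n, wt ε (fun k => w r i (piece (cfg u) k)) l /
            ∑ l, wt ε (fun k => w r i (piece (cfg u) k)) l = 1 := by
          intro i
          rw [← Finset.sum_div]
          exact div_self (hpos i).ne'
        rw [Finset.sum_congr rfl (fun i _ => this i)]
        simp only [Finset.sum_const, Finset.card_univ, nsmul_eq_mul, mul_one]
        rw [hι r]
        push_cast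
        ring
      have h2 : ∀ l : Fin n, ∑ i : ι r, wt ε (fun k => w r i (piece (cfg u) k)) l /
          ∑ l, wt ε (fun k => w r i (piece (cfg u) k)) l = ∑ i : ι r,
          wt ε (fun k => w r i (piece (cfg u) k)) j /
          ∑ l, wt ε (fun k => w r i (piece (cfg u) k)) l := fun l => he r l j
      rw [Finset.sum_congr rfl (fun l _ => h2 l)] at h1
      simp only [Finset.sum_const, Finset.card_univ, nsmul_eq_mul, Fintype.card_fin] at h1
      rw [mul_comm] at h1
      exact mul_right_cancel₀ hn0 h1)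
  refine ⟨π, hπ1, ?_⟩
  intro i j
  have h1 := hπ2 i
  have h2 : 0 < wt ε (fun k => w r i (piece (cfg u) k)) (π i) := by
    by_contra hcon
    have h3 : wt ε (fun k => w r i (piece (cfg u) k)) (π i) = 0 :=
      le_antisymm (not_lt.mp hcon) (wt_nonneg _ _ _)
    simp only [h3, zero_div, lt_irrefl] at h1
  exact (wt_lt h2 j).le

/-- envy-free partitions for `b r * n` players in the family `r`, `n` a prime power -/
theorem multi (n d : ℕ) (hn : IsPrimePow n) (hd : 0 < d) (b : Fin d → ℕ) (ι : Fin d → Type)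
    [∀ r, Fintype (ι r)] (hι : ∀ r, Fintype.card (ι r) = b r * n)
    (w : ∀ r, ι r → Set (EuclideanSpace ℝ (Fin d)) → ℝ)
    (hw : ∀ r i j, ∀ x : Fin n → P d, Function.Injective x →
      ContinuousAt (fun z : Fin n → P d => w r i (piece z j)) x) :
    ∃ x : Fin n → P d, Function.Injective x ∧
      ∀ r, ∃ π : ι r → Fin n, (∀ j, Nat.card {i // π i = j} = b r) ∧
        ∀ i j, w r i (piece x j) ≤ w r i (piece x (π i)) := by
  classical
  have h := fun m : ℕ => multiE n d hn hd b ι hι w hw (1 / ((m : ℝ) + 1)) (by positivity)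
  choose u hu Q hQ1 hQ2 using h
  obtain ⟨u0, Q0, φ, hφ, hlu, hu0, hQ0⟩ := cpt u Q hu
  have hxinj : Function.Injective (cfg u0) := Pool.Agent.H58.EF.EF7a u0
  refine ⟨cfg u0, hxinj, ?_⟩
  intro r
  refine ⟨Q0 r, ?_, ?_⟩
  · intro j
    have := hQ1 (φ 0) r j
    rw [hQ0 0] at this
    exact this
  · intro i j
    have hcont : ∀ j, Filter.Tendsto (fun m => w r i (piece (cfg (u (φ m))) j)) Filter.atTop
        (nhds (w r i (piece (cfg u0) j))) := by
      intro j
      have h1 : ContinuousAt (fun u : Fin n → Fin d → ℝ => w r i (piece (cfg u) j)) u0 :=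
        ContinuousAt.comp (f := cfg) (g := fun z => w r i (piece z j)) (hw r i j _ hxinj)
          (Pool.Agent.H58.EF.EF7b (n := n) (d := d)).continuousAt
      exact h1.tendsto.comp hlu
    have h0 : Filter.Tendsto (fun m => 1 / (((φ m : ℕ) : ℝ) + 1)) Filter.atTop (nhds 0) :=
      tendsto_one_div_add_atTop_nhds_zero_nat.comp hφ.tendsto_atTop
    have h2 := (hcont (Q0 r i)).add h0
    rw [add_zero] at h2
    apply le_of_tendsto_of_tendsto' (hcont j) h2
    intro m
    have := hQ2 (φ m) r i j
    rw [hQ0 m] at this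
    exact this

end Pool.Agent.H53.EFG
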