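import Pool.Agent.H53.EFG.Mul

/-!
Rounding lemmas (MP_fa8b7d_co): integral assignments with prescribed or common capacities.
-/

namespace Pool.Agent.H53.EFG

open Finset

/-- prescribed capacities -/
theorem hallc {ι κ : Type*} [Fintype ι] [Fintype κ] (A : ι → κ → ℝ) (β : ℝ)
    (hA : ∀ i j, 0 ≤ A i j) (hrow : ∀ i, ∑ j, A i j = 1) (hcol : ∀ j, ∑ i, A i j = β)
    (c : κ → ℕ) (hsum : ∑ j, c j = Fintype.card ι)
    (hc : ∀ J : Finset κ, ((∑ j ∈ J, c j : ℕ) : ℝ) < β * J.card + 1) :
    ∃ π : ι → κ, (∀ j, Nat.card {i // π i = j} = c j) ∧ ∀ i, 0 < A i (π i) := by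
  classical
  obtain ⟨f, hf, hfm⟩ := (Finset.all_card_le_biUnion_card_iff_exists_injective
    (fun s : (Σ j : κ, Fin (c j)) => (Finset.univ.filter (fun i : ι => 0 < A i s.1)))).mp (by
    intro S
    set J := S.image Sigma.fst with hJ
    set N := S.biUnion (fun s : (Σ j : κ, Fin (c j)) =>
      (Finset.univ.filter (fun i : ι => 0 < A i s.1))) with hN
    have h1 : S.card ≤ ∑ j ∈ J, c j := by
      have : S ⊆ J.sigma (fun j => (Finset.univ : Finset (Fin (c j)))) := by
        intro s hs
        rw [Finset.mem_sigma]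
        exact ⟨Finset.mem_image_of_mem _ hs, Finset.mem_univ _⟩
      have := Finset.card_le_card this
      rw [Finset.card_sigma] at this
      simpa using this
    have h2 : β * (J.card : ℝ) ≤ (N.card : ℝ) := by
      have e1 : β * (J.card : ℝ) = ∑ j ∈ J, ∑ i, A i j := by
        rw [Finset.sum_congr rfl (fun j _ => hcol j), Finset.sum_const, nsmul_eq_mul]
        ring
      have e2 : ∑ j ∈ J, ∑ i, A i j = ∑ i, ∑ j ∈ J, A i j := Finset.sum_comm
      have e3 : ∑ i ∈ N, ∑ j ∈ J, A i j = ∑ i, ∑ j ∈ J, A i j := by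
        apply Finset.sum_subset (Finset.subset_univ N)
        intro i _ hi
        apply Finset.sum_eq_zero
        intro j hj
        obtain ⟨s, hs, hsj⟩ := Finset.mem_image.mp hj
        by_contra hne
        apply hi
        rw [hN, Finset.mem_biUnion]
        refine ⟨s, hs, ?_⟩
        rw [Finset.mem_filter]
        refine ⟨Finset.mem_univ _, ?_⟩
        rw [hsj]
        exact lt_of_le_of_ne (hA i j) (fun h => hne h.symm)
      have e4 : ∑ i ∈ N, ∑ j ∈ J, A i j ≤ ∑ i ∈ N, (1 : ℝ) := by
        apply Finset.sum_le_sum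
        intro i _
        rw [← hrow i]
        exact Finset.sum_le_sum_of_subset_of_nonneg (Finset.subset_univ J) (fun j _ _ => hA i j)
      rw [e1, e2, ← e3]
      refine le_trans e4 ?_
      simp
    have h3 : ((∑ j ∈ J, c j : ℕ) : ℝ) < (N.card : ℝ) + 1 := lt_of_lt_of_le (hc J) (by linarith)
    have h4 : ∑ j ∈ J, c j < N.card + 1 := by exact_mod_cast h3
    exact h1.trans (Nat.lt_succ_iff.mp h4))
  have hbij : Function.Bijective f := by
    rw [Fintype.bijective_iff_injective_and_card]
    refine ⟨hf, ?_⟩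
    rw [← hsum]
    simp
  set e := Equiv.ofBijective f hbij with he
  refine ⟨fun i => (e.symm i).1, ?_, ?_⟩
  · intro j
    have e1 : {i // (e.symm i).1 = j} ≃ Fin (c j) :=
      { toFun := fun i => i.2 ▸ (e.symm i.1).2
        invFun := fun k => ⟨e ⟨j, k⟩, by simp⟩
        left_inv := by
          rintro ⟨i, hi⟩
          subst hi
          apply Subtype.ext
          simp
        right_inv := by
          intro k
          have h : ∀ (s : Σ j : κ, Fin (c j)) (hs : s.1 = j), s = ⟨j, k⟩ →
              (hs ▸ s.2 : Fin (c j)) = k := by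
            rintro s hs rfl
            rfl
          exact h _ _ (e.symm_apply_apply _) }
    rw [Nat.card_congr e1, Nat.card_eq_fintype_card, Fintype.card_fin]
  · intro i
    have h1 := hfm (e.symm i)
    have h2 : f (e.symm i) = i := e.apply_symm_apply i
    rw [h2, Finset.mem_filter] at h1
    exact h1.2

/-- `n = k q + 1` -/
theorem round_plus {ι : Type*} [Fintype ι] (q k : ℕ) [NeZero q] (A : ι → Fin q → ℝ) (j0 : Fin q)
    (hι : Fintype.card ι = k * q + 1)
    (hA : ∀ i j, 0 ≤ A i j) (hrow : ∀ i, ∑ j, A i j = 1)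
    (hcol : ∀ j, ∑ i, A i j = (Fintype.card ι : ℝ) / q) :
    ∃ π : ι → Fin q, (∀ j, Nat.card {i // π i = j} = k + if j = j0 then 1 else 0) ∧
      ∀ i, 0 < A i (π i) := by
  have hq : (0 : ℝ) < q := by exact_mod_cast Nat.pos_of_ne_zero (NeZero.ne q)
  refine hallc A ((Fintype.card ι : ℝ) / q) hA hrow hcol (fun j => k + if j = j0 then 1 else 0)
    ?_ ?_
  · rw [Finset.sum_add_distrib, hι]
    simp [mul_comm]
  · intro J
    rw [hι]
    have h1 : (∑ j ∈ J, (k + if j = j0 then 1 else 0) : ℕ) ≤ k * J.card + 1 := by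
      rw [Finset.sum_add_distrib, Finset.sum_const, smul_eq_mul, Finset.sum_ite_eq']
      split_ifs
      · rw [mul_comm]
      · rw [mul_comm]; omega
    have h2 : ((∑ j ∈ J, (k + if j = j0 then 1 else 0) : ℕ) : ℝ) ≤ k * J.card + 1 := by
      exact_mod_cast h1
    rcases J.eq_empty_or_nonempty with hJ | hJ
    · subst hJ
      simp
    · have h3 : (0 : ℝ) < J.card := by exact_mod_cast hJ.card_pos
      refine lt_of_le_of_lt h2 ?_
      push_cast
      have h4 : ((k : ℝ) * q + 1) / q = k + 1 / q := by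
        rw [add_div, mul_div_assoc, div_self hq.ne', mul_one]
      rw [h4, add_mul]
      have h5 : 0 < 1 / (q : ℝ) * J.card := by positivity
      linarith

/-- `n = k q - 1` -/
theorem round_minus {ι : Type*} [Fintype ι] (q k : ℕ) [NeZero q] (hk : 0 < k)
    (A : ι → Fin q → ℝ) (j0 : Fin q) (hι : Fintype.card ι + 1 = k * q)
    (hA : ∀ i j, 0 ≤ A i j) (hrow : ∀ i, ∑ j, A i j = 1)
    (hcol : ∀ j, ∑ i, A i j = (Fintype.card ι : ℝ) / q) :
    ∃ π : ι → Fin q, (∀ j, Nat.card {i // π i = j} = k - if j = j0 then 1 else 0) ∧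
      ∀ i, 0 < A i (π i) := by
  classical
  have hq : (0 : ℝ) < q := by exact_mod_cast Nat.pos_of_ne_zero (NeZero.ne q)
  have hadd : ∀ J : Finset (Fin q), (∑ j ∈ J, (k - if j = j0 then 1 else 0)) +
      (if j0 ∈ J then 1 else 0) = k * J.card := by
    intro J
    rw [← Finset.sum_ite_eq' J j0 (fun _ => 1), ← Finset.sum_add_distrib]
    rw [mul_comm, ← smul_eq_mul, ← Finset.sum_const]
    apply Finset.sum_congr rfl
    intro j _
    split_ifs <;> omega
  refine hallc A ((Fintype.card ι : ℝ) / q) hA hrow hcol (fun j => k - if j = j0 then 1 else 0)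
    ?_ ?_
  · have := hadd Finset.univ
    rw [if_pos (Finset.mem_univ _), Finset.card_univ, Fintype.card_fin] at this
    omega
  · intro J
    have hcr : (Fintype.card ι : ℝ) = k * q - 1 := by
      have : ((Fintype.card ι + 1 : ℕ) : ℝ) = ((k * q : ℕ) : ℝ) := by rw [hι]
      push_cast at this
      linarith
    have h4 : (Fintype.card ι : ℝ) / q = k - 1 / q := by
      rw [hcr, sub_div, mul_div_assoc, div_self hq.ne', mul_one]
    rw [h4, sub_mul]
    have h1 := hadd J
    have h1' : ((∑ j ∈ J, (k - if j = j0 then 1 else 0) : ℕ) : ℝ) +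
      (if j0 ∈ J then 1 else 0) = k * J.card := by exact_mod_cast h1
    have hJq : (J.card : ℝ) ≤ q := by
      have := Finset.card_le_univ J
      rw [Fintype.card_fin] at this
      exact_mod_cast this
    have h5 : 1 / (q : ℝ) * J.card ≤ 1 := by
      rw [one_div, inv_mul_le_iff₀ hq]
      linarith
    by_cases hj : j0 ∈ J
    · rw [if_pos hj] at h1'
      linarith
    · rw [if_neg hj] at h1'
      have h6 : 1 / (q : ℝ) * J.card < 1 := by
        rw [one_div, inv_mul_lt_iff₀ hq, mul_one]
        have : J.card < q := by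
          have h7 : J ⊂ Finset.univ := by
            rw [Finset.ssubset_univ_iff]
            intro h
            rw [h] at hj
            exact hj (Finset.mem_univ _)
          have := Finset.card_lt_card h7
          rwa [Finset.card_univ, Fintype.card_fin] at this
        exact_mod_cast this
      linarith

end Pool.Agent.H53.EFG
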