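import Pool.Agent.H53.EFG.Lim

/-!
`n < q` pieces from `q` blocks by dissolving `q - n` blocks (MP_fa8b7d_co).
-/

namespace Pool.Agent.H53.EFG

open Finset Pool.Agent.H62.EF MeasureTheory

theorem ae_disj {n d : ℕ} (μ : Measure (EuclideanSpace ℝ (Fin d)))
    (hμ : μ.AbsolutelyContinuous volume)
    (x : Fin n → P d) (hx : Function.Injective x) (k l : Fin n) (hkl : k ≠ l) :
    AEDisjoint μ (piece x k) (piece x l) := by
  have h0 := hμ (Pool.Agent.H41.EF.null_agree x k l (fun h => hkl (hx h)))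
  apply measure_mono_null _ h0
  rintro y ⟨h1, h2⟩
  exact le_antisymm (h2 k) (h1 l)

theorem ruleT (q n m : ℕ) (hn : 0 < n) (hnq : n < q) (hm : 0 < m)
    (hcase : m ≤ 2 ∨ n + 1 = q)
    (A : Fin m → Fin n → Fin q → ℝ) (hA : ∀ r i j, 0 ≤ A r i j)
    (hrow : ∀ r i, ∑ j, A r i j = 1) (hcol : ∀ r j, ∑ i, A r i j = (n : ℝ) / q) :
    ∃ (c : Fin q → ℕ) (π : Fin m → Fin n → Fin q),
      (∀ j, 0 ≤ c j ∧ c j ≤ 1) ∧
      (∀ r j, Nat.card {i // π r i = j} = c j) ∧ ∀ r i, 0 < A r i (π r i) := by
  classical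
  have : NeZero q := ⟨by omega⟩
  have hq : (0 : ℝ) < q := by exact_mod_cast Nat.pos_of_ne_zero (NeZero.ne q)
  rcases hcase with hm2 | h
  · have hθ1 : (n : ℝ) / q ≤ 1 := by
      rw [div_le_one hq]
      exact_mod_cast hnq.le
    have hβ0 : (0 : ℝ) < (n : ℝ) / q := by
      apply div_pos _ hq
      exact_mod_cast hn
    have hlast : m - 1 < m := by omega
    obtain ⟨c, π, π', hc, h1, h2, h3, h4⟩ := two q 0 ((n : ℝ) / q) ((n : ℝ) / q)
      (by positivity) hθ1 (by simp) hβ0 (A ⟨0, hm⟩) (A ⟨m - 1, hlast⟩)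
      (hA _) (hrow _) (hcol _) (hA _) (hrow _) (hcol _)
    have hr : ∀ r : Fin m, r = ⟨0, hm⟩ ∨ r = ⟨m - 1, hlast⟩ := by
      intro r
      rcases r with ⟨r, hr⟩
      rcases Nat.eq_zero_or_pos r with h | h
      · left
        exact Fin.ext h
      · right
        apply Fin.ext
        change r = m - 1
        omega
    refine ⟨c, fun r => if r = ⟨0, hm⟩ then π else π', fun j => ⟨Nat.zero_le _, (hc j).2⟩,
      ?_, ?_⟩
    · intro r j
      by_cases h : r = ⟨0, hm⟩
      · simp only [if_pos h]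
        exact h1 j
      · simp only [if_neg h]
        exact h2 j
    · intro r i
      by_cases h : r = ⟨0, hm⟩
      · simp only [if_pos h]
        rw [h]
        exact h3 i
      · simp only [if_neg h]
        rw [(hr r).resolve_left h]
        exact h4 i
  · have hn' : Fintype.card (Fin n) + 1 = 1 * q := by
      rw [Fintype.card_fin, one_mul]
      exact h
    have h' := fun r => round_minus q 1 one_pos (A r) ⟨0, by omega⟩ hn' (hA r)
      (hrow r) (fun j => by rw [Fintype.card_fin]; exact hcol r j)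
    choose π hπ1 hπ2 using h'
    refine ⟨_, π, ?_, hπ1, hπ2⟩
    intro j
    split_ifs <;> omega

theorem trash (q n m d : ℕ) (hq : IsPrimePow q) (hn : 0 < n) (hnq : n < q) (hm : 0 < m)
    (hmd : m ≤ d) (hcase : m ≤ 2 ∨ n + 1 = q)
    (μ : Fin m → Fin n → Measure (EuclideanSpace ℝ (Fin d)))
    (hμ : ∀ r i, IsProbabilityMeasure (μ r i))
    (hac : ∀ r i, (μ r i).AbsolutelyContinuous volume) :
    ∃ C : Fin n → Set (EuclideanSpace ℝ (Fin d)),
      (∀ k, Convex ℝ (C k)) ∧ (∀ k, IsClosed (C k)) ∧ (⋃ k, C k) = Set.univ ∧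
      (∀ k l, k ≠ l → Disjoint (interior (C k)) (interior (C l))) ∧
      ∀ r, ∃ π : Equiv.Perm (Fin n), ∀ i,
        ∑ k, (μ r i (C k) - μ r i (C (π i))) ≤ ((q - n : ℕ) : ENNReal) * μ r i (C (π i)) := by
  classical
  obtain ⟨x, π0, hx, ⟨c, hc, hπ0⟩, hfav⟩ := blocksM q n m d hq hm hmd
    (fun π => ∃ c : Fin q → ℕ, (∀ j, 0 ≤ c j ∧ c j ≤ 1) ∧
      ∀ r j, Nat.card {i // π r i = j} = c j) (by
      intro A hA hrow hcol
      obtain ⟨c, π, h1, h2, h3⟩ := ruleT q n m hn hnq hm hcase A hA hrow hcol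
      exact ⟨π, ⟨c, h1, h2⟩, h3⟩) μ hμ hac
  have hinj : ∀ r, Function.Injective (π0 r) := by
    intro r i i' h
    have h1 := hπ0 r (π0 r i')
    have h2 : Nat.card {i // π0 r i = π0 r i'} ≤ 1 := by rw [h1]; exact (hc _).2
    rw [Nat.card_eq_fintype_card, Fintype.card_le_one_iff] at h2
    exact congrArg Subtype.val (h2 ⟨i, h⟩ ⟨i', rfl⟩)
  -- the kept blocks
  set s : Fin n → Fin q := π0 ⟨0, hm⟩ with hs
  have hsinj : Function.Injective s := hinj _
  have hrng : ∀ r i, π0 r i ∈ Set.range s := by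
    intro r i
    have h1 : 0 < c (π0 r i) := by
      rw [← hπ0 r (π0 r i), Nat.card_eq_fintype_card, Fintype.card_pos_iff]
      exact ⟨⟨i, rfl⟩⟩
    rw [← hπ0 ⟨0, hm⟩ (π0 r i), Nat.card_eq_fintype_card, Fintype.card_pos_iff] at h1
    obtain ⟨⟨i', hi'⟩⟩ := h1
    exact ⟨i', hi'⟩
  set x' : Fin n → P d := fun k => x (s k) with hx'
  have hx'inj : Function.Injective x' := hx.comp hsinj
  have hsub : ∀ k, piece x (s k) ⊆ piece x' k := by
    intro k y hy l
    exact hy (s l)
  have hsup : ∀ k, piece x' k ⊆ piece x (s k) ∪ (piece x' k ∩ ⋃ j ∈ {j | j ∉ Set.range s},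
      piece x j) := by
    intro k y hy
    have hne : Nonempty (Fin q) := ⟨⟨0, by omega⟩⟩
    obtain ⟨j, hj⟩ := Finite.exists_max
      (fun m : Fin q => (∑ c, (x m).1 c * y c) + (x m).2)
    by_cases hjs : j ∈ Set.range s
    · left
      obtain ⟨k', hk'⟩ := hjs
      intro l
      refine le_trans (hj l) ?_
      rw [← hk']
      exact hy k'
    · right
      refine ⟨hy, ?_⟩
      simp only [Set.mem_iUnion, Set.mem_ofPred_eq, exists_prop]
      exact ⟨j, hjs, hj⟩
  refine ⟨piece x', Pool.Agent.H41.EF.EF6a x', Pool.Agent.H41.EF.EF6b x',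
    Pool.Agent.H41.EF.EF6c hn x', ?_, ?_⟩
  · intro k l hkl
    exact Pool.Agent.H41.EF.EF6d x' hx'inj k l hkl
  · intro r
    -- the permutation
    choose t ht using hrng r
    have htinj : Function.Injective t := by
      intro i i' h
      apply hinj r
      rw [← ht i, ← ht i', h]
    refine ⟨Equiv.ofBijective t (Finite.injective_iff_bijective.mp htinj), ?_⟩
    intro i
    rw [Equiv.ofBijective_apply]
    have hown : ∀ j, μ r i (piece x j) ≤ μ r i (piece x' (t i)) := by
      intro j
      refine le_trans (hfav r i j) ?_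
      rw [← ht i]
      exact measure_mono (hsub (t i))
    set T : Set (EuclideanSpace ℝ (Fin d)) := ⋃ j ∈ {j | j ∉ Set.range s}, piece x j with hT
    have hTm : MeasurableSet T := by
      apply MeasurableSet.biUnion (Set.to_countable _)
      intro j _
      exact (Pool.Agent.H41.EF.EF6b x j).measurableSet
    have h1 : ∀ k, μ r i (piece x' k) - μ r i (piece x' (t i)) ≤ μ r i (piece x' k ∩ T) := by
      intro k
      rw [tsub_le_iff_right]
      refine le_trans (measure_mono (hsup k)) ?_
      refine le_trans (measure_union_le _ _) ?_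
      rw [add_comm]
      exact add_le_add le_rfl (hown (s k))
    refine le_trans (Finset.sum_le_sum (fun k _ => h1 k)) ?_
    have h2 : ∑ k, μ r i (piece x' k ∩ T) ≤ μ r i T := by
      have h3 : μ r i (⋃ k ∈ (Finset.univ : Finset (Fin n)), (piece x' k ∩ T)) =
          ∑ k, μ r i (piece x' k ∩ T) := by
        apply measure_biUnion_finset₀
        · intro k _ l _ hkl
          exact (ae_disj (μ r i) (hac r i) x' hx'inj k l hkl).mono
            Set.inter_subset_left Set.inter_subset_left
        · intro k _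
          exact ((Pool.Agent.H41.EF.EF6b x' k).measurableSet.inter hTm).nullMeasurableSet
      rw [← h3]
      apply measure_mono
      intro y hy
      simp only [Set.mem_iUnion] at hy
      obtain ⟨k, _, hy⟩ := hy
      exact hy.2
    refine le_trans h2 ?_
    have h4 : T = ⋃ j ∈ (Finset.univ.filter (fun j => j ∉ Set.range s) : Finset (Fin q)),
        piece x j := by
      rw [hT]
      ext y
      simp
    rw [h4]
    refine le_trans (measure_biUnion_finset_le _ _) ?_
    refine le_trans (Finset.sum_le_sum (fun j _ => hown j)) ?_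
    rw [Finset.sum_const, nsmul_eq_mul]
    have h5 : (Finset.univ.filter (fun j => j ∉ Set.range s) : Finset (Fin q)).card = q - n := by
      have h6 : (Finset.univ.filter (fun j => j ∉ Set.range s) : Finset (Fin q)) =
          Finset.univ \ Finset.univ.image s := by
        ext j
        simp
      rw [h6, Finset.card_sdiff_of_subset (Finset.subset_univ _), Finset.card_univ,
        Fintype.card_fin, Finset.card_image_of_injective _ hsinj, Finset.card_univ,
        Fintype.card_fin]
    rw [h5]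

end Pool.Agent.H53.EFG
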