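import Pool.Agent.H53.EFG.Round

/-!
Common rounding of two matrices (MP_fa8b7d_co).
-/

namespace Pool.Agent.H53.EFG

open Finset

/-- the auxiliary doubly stochastic matrix -/
noncomputable def Mx {ι ι' : Type*} {q k : ℕ} (θ β : ℝ) (A : ι → Fin q → ℝ) (B : ι' → Fin q → ℝ) :
    ι ⊕ (Fin q × Fin (k + 1)) → (Fin q × Fin (k + 1)) ⊕ ι' → ℝ
  | Sum.inl i, Sum.inl x => A i x.1 * (if x.2 = Fin.last k then θ / β else 1 / β)
  | Sum.inl _, Sum.inr _ => 0
  | Sum.inr y, Sum.inl x => if y = x then (if x.2 = Fin.last k then 1 - θ else 0) else 0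
  | Sum.inr y, Sum.inr l => B l y.1 * (if y.2 = Fin.last k then θ / β else 1 / β)

theorem sum_slot {q k : ℕ} (θ β : ℝ) (hβ : β = k + θ) (hβ0 : 0 < β) (a : Fin q → ℝ) :
    ∑ x : Fin q × Fin (k + 1), a x.1 * (if x.2 = Fin.last k then θ / β else 1 / β) = ∑ j, a j := by
  rw [Fintype.sum_prod_type]
  apply Finset.sum_congr rfl
  intro j _
  change ∑ y : Fin (k + 1), a j * (if y = Fin.last k then θ / β else 1 / β) = a j
  rw [← Finset.mul_sum, Fin.sum_univ_castSucc]
  have h1 : ∀ e : Fin k, (if (Fin.castSucc e) = Fin.last k then θ / β else 1 / β) = 1 / β := by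
    intro e
    rw [if_neg (Fin.castSucc_lt_last e).ne]
  simp only [if_true]
  rw [Finset.sum_congr rfl (fun e _ => h1 e)]
  rw [Finset.sum_const, Finset.card_univ, Fintype.card_fin, nsmul_eq_mul]
  have : (k : ℝ) * (1 / β) + θ / β = 1 := by
    rw [mul_one_div, ← add_div, ← hβ, div_self hβ0.ne']
  rw [this, mul_one]

theorem two {ι ι' : Type*} [Fintype ι] [Fintype ι'] (q k : ℕ) [NeZero q] (θ β : ℝ)
    (hθ0 : 0 ≤ θ) (hθ1 : θ ≤ 1) (hβ : β = k + θ) (hβ0 : 0 < β)
    (A : ι → Fin q → ℝ) (B : ι' → Fin q → ℝ)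
    (hA : ∀ i j, 0 ≤ A i j) (hrow : ∀ i, ∑ j, A i j = 1) (hcol : ∀ j, ∑ i, A i j = β)
    (hB : ∀ i j, 0 ≤ B i j) (hrow' : ∀ i, ∑ j, B i j = 1) (hcol' : ∀ j, ∑ i, B i j = β) :
    ∃ (c : Fin q → ℕ) (π : ι → Fin q) (π' : ι' → Fin q), (∀ j, k ≤ c j ∧ c j ≤ k + 1) ∧
      (∀ j, Nat.card {i // π i = j} = c j) ∧ (∀ j, Nat.card {i // π' i = j} = c j) ∧
      (∀ i, 0 < A i (π i)) ∧ ∀ i, 0 < B i (π' i) := by
  classical
  have hcA : (Fintype.card ι : ℝ) = q * β := by
    have h1 : ∑ i, ∑ j, A i j = ∑ j, ∑ i, A i j := Finset.sum_comm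
    rw [Finset.sum_congr rfl (fun i _ => hrow i), Finset.sum_congr rfl (fun j _ => hcol j)] at h1
    simpa using h1
  have hcB : (Fintype.card ι' : ℝ) = q * β := by
    have h1 : ∑ i, ∑ j, B i j = ∑ j, ∑ i, B i j := Finset.sum_comm
    rw [Finset.sum_congr rfl (fun i _ => hrow' i), Finset.sum_congr rfl (fun j _ => hcol' j)] at h1
    simpa using h1
  have hcard : Fintype.card ι = Fintype.card ι' := by
    have : (Fintype.card ι : ℝ) = Fintype.card ι' := by rw [hcA, hcB]
    exact_mod_cast this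
  have hw0 : ∀ x : Fin (k + 1), 0 ≤ (if x = Fin.last k then θ / β else 1 / β) := by
    intro x
    split_ifs <;> positivity
  have hM0 : ∀ x y, 0 ≤ Mx (k := k) θ β A B x y := by
    intro x y
    rcases x with i | x <;> rcases y with y | l <;> unfold Mx <;> simp only
    · exact mul_nonneg (hA _ _) (hw0 _)
    · exact le_rfl
    · split_ifs
      · linarith
      · exact le_rfl
      · exact le_rfl
    · exact mul_nonneg (hB _ _) (hw0 _)
  obtain ⟨f, hf1, hf2⟩ := hallc (Mx (k := k) θ β A B) 1 hM0 (by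
    intro x
    rw [Fintype.sum_sum_type]
    rcases x with i | x
    · simp only [Mx, Finset.sum_const_zero, add_zero]
      rw [sum_slot θ β hβ hβ0 (A i)]
      exact hrow i
    · simp only [Mx]
      rw [Finset.sum_ite_eq]
      simp only [Finset.mem_univ, if_true]
      rw [← Finset.sum_mul, hcol']
      split_ifs
      · rw [mul_div_cancel₀ _ hβ0.ne']
        ring
      · rw [mul_one_div, div_self hβ0.ne', zero_add]) (by
    intro y
    rw [Fintype.sum_sum_type]
    rcases y with y | l
    · simp only [Mx]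
      rw [Finset.sum_ite_eq']
      simp only [Finset.mem_univ, if_true]
      rw [← Finset.sum_mul, hcol]
      split_ifs
      · rw [mul_div_cancel₀ _ hβ0.ne']
        ring
      · rw [mul_one_div, div_self hβ0.ne', add_zero]
    · simp only [Mx, Finset.sum_const_zero, zero_add]
      rw [sum_slot θ β hβ hβ0 (B l)]
      exact hrow' l) (fun _ => 1) (by simp [hcard, add_comm]) (by
    intro J
    simp)
  -- f is bijective
  have hsurj : Function.Surjective f := by
    intro y
    have := hf1 y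
    have h2 : 0 < Nat.card {x // f x = y} := by rw [this]; exact one_pos
    rw [Nat.card_pos_iff] at h2
    obtain ⟨⟨x, hx⟩⟩ := h2.1
    exact ⟨x, hx⟩
  have hinj : Function.Injective f := by
    intro x x' hxx
    have := hf1 (f x')
    rw [Nat.card_eq_one_iff_unique] at this
    have h3 := this.1.elim ⟨x, hxx⟩ ⟨x', rfl⟩
    exact congrArg Subtype.val h3
  have hs : ∀ i : ι, ∃ x : Fin q × Fin (k + 1), f (Sum.inl i) = Sum.inl x ∧ 0 < A i x.1 := by
    intro i
    have h1 := hf2 (Sum.inl i)
    rcases h2 : f (Sum.inl i) with x | l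
    · rw [h2] at h1
      simp only [Mx] at h1
      refine ⟨x, rfl, ?_⟩
      by_contra hcon
      have h3 : A i x.1 = 0 := le_antisymm (not_lt.mp hcon) (hA _ _)
      rw [h3, zero_mul] at h1
      exact lt_irrefl _ h1
    · rw [h2] at h1
      simp only [Mx] at h1
      exact absurd h1 (lt_irrefl _)
  have ht : ∀ l : ι', ∃ x : Fin q × Fin (k + 1), f (Sum.inr x) = Sum.inr l ∧ 0 < B l x.1 := by
    intro l
    obtain ⟨x, hx⟩ := hsurj (Sum.inr l)
    have h1 := hf2 x
    rw [hx] at h1
    rcases x with i | x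
    · simp only [Mx] at h1
      exact absurd h1 (lt_irrefl _)
    · simp only [Mx] at h1
      refine ⟨x, hx, ?_⟩
      by_contra hcon
      have h3 : B l x.1 = 0 := le_antisymm (not_lt.mp hcon) (hB _ _)
      rw [h3, zero_mul] at h1
      exact lt_irrefl _ h1
  choose s hs1 hs2 using hs
  choose t ht1 ht2 using ht
  have hsinj : Function.Injective s := by
    intro i i' h
    have : f (Sum.inl i) = f (Sum.inl i') := by rw [hs1, hs1, h]
    exact Sum.inl_injective (hinj this)
  have htinj : Function.Injective t := by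
    intro l l' h
    have : (Sum.inr l : (Fin q × Fin (k + 1)) ⊕ ι') = Sum.inr l' := by rw [← ht1, ← ht1, h]
    exact Sum.inr_injective this
  -- unused slots
  have hun : ∀ y x, f (Sum.inr y) = Sum.inl x → y = x ∧ x.2 = Fin.last k := by
    intro y x h
    have h1 := hf2 (Sum.inr y)
    rw [h] at h1
    simp only [Mx] at h1
    by_cases h2 : y = x
    · refine ⟨h2, ?_⟩
      by_contra h3
      rw [if_pos h2, if_neg h3] at h1
      exact lt_irrefl _ h1
    · rw [if_neg h2] at h1
      exact absurd h1 (lt_irrefl _)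
  have hrng : ∀ x, x ∉ Set.range s → f (Sum.inr x) = Sum.inl x := by
    intro x hx
    obtain ⟨y, hy⟩ := hsurj (Sum.inl x)
    rcases y with i | y
    · exfalso
      apply hx
      refine ⟨i, ?_⟩
      rw [hs1] at hy
      exact Sum.inl_injective hy
    · obtain ⟨h1, _⟩ := hun y x hy
      rw [h1] at hy
      exact hy
  have hUU : Set.range s = Set.range t := by
    ext x
    constructor
    · intro hx
      obtain ⟨i, hi⟩ := hx
      rcases h1 : f (Sum.inr x) with x' | l
      · obtain ⟨h2, _⟩ := hun x x' h1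
        rw [← h2, ← hi, ← hs1 i] at h1
        exact absurd (hinj h1) (by simp)
      · refine ⟨l, ?_⟩
        have h2 := ht1 l
        rw [← h1] at h2
        exact Sum.inr_injective (hinj h2)
    · rintro ⟨l, hl⟩
      by_contra hx
      have h1 := hrng x hx
      have h2 := ht1 l
      rw [hl, h1] at h2
      exact absurd h2 (by simp)
  have hfin : ∀ j : Fin q, Finite {x : Fin q × Fin (k + 1) // x ∈ Set.range s ∧ x.1 = j} :=
    fun j => inferInstance
  refine ⟨fun j => Nat.card {x : Fin q × Fin (k + 1) // x ∈ Set.range s ∧ x.1 = j},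
    fun i => (s i).1, fun l => (t l).1, ?_, ?_, ?_, fun i => hs2 i, fun l => ht2 l⟩
  · intro j
    constructor
    · have hmem : ∀ e : Fin k, ((j, Fin.castSucc e) : Fin q × Fin (k + 1)) ∈ Set.range s := by
        intro e
        by_contra hx
        have h1 := hun _ _ (hrng _ hx)
        exact (Fin.castSucc_lt_last e).ne h1.2
      have h1 := Nat.card_le_card_of_injective
        (fun e : Fin k => (⟨(j, Fin.castSucc e), hmem e, rfl⟩ :
          {x : Fin q × Fin (k + 1) // x ∈ Set.range s ∧ x.1 = j})) (by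
          intro e e' h
          have h2 := congrArg (fun x => x.1.2) h
          exact Fin.castSucc_injective _ h2)
      rwa [Nat.card_eq_fintype_card, Fintype.card_fin] at h1
    · have h1 := Nat.card_le_card_of_injective
        (fun x : {x : Fin q × Fin (k + 1) // x ∈ Set.range s ∧ x.1 = j} => x.1.2) (by
          intro x x' h
          apply Subtype.ext
          exact Prod.ext (x.2.2.trans x'.2.2.symm) h)
      rwa [Nat.card_eq_fintype_card (α := Fin (k + 1)), Fintype.card_fin] at h1
  · intro j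
    apply Nat.card_congr
    refine Equiv.ofBijective (fun i : {i // (s i).1 = j} => (⟨s i.1, ⟨i.1, rfl⟩, i.2⟩ :
      {x : Fin q × Fin (k + 1) // x ∈ Set.range s ∧ x.1 = j})) ⟨?_, ?_⟩
    · intro i i' h
      apply Subtype.ext
      exact hsinj (congrArg Subtype.val h)
    · rintro ⟨x, ⟨i, hi⟩, hx⟩
      refine ⟨⟨i, by change (s i).1 = j; rw [hi]; exact hx⟩, ?_⟩
      apply Subtype.ext
      exact hi
  · intro j
    apply Nat.card_congr
    refine Equiv.ofBijective (fun i : {i // (t i).1 = j} =>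
      (⟨t i.1, by rw [hUU]; exact ⟨i.1, rfl⟩, i.2⟩ :
      {x : Fin q × Fin (k + 1) // x ∈ Set.range s ∧ x.1 = j})) ⟨?_, ?_⟩
    · intro i i' h
      apply Subtype.ext
      exact htinj (congrArg Subtype.val h)
    · rintro ⟨x, hxr, hx⟩
      have hxr' := hxr
      rw [hUU] at hxr'
      obtain ⟨i, hi⟩ := hxr'
      refine ⟨⟨i, by change (t i).1 = j; rw [hi]; exact hx⟩, ?_⟩
      apply Subtype.ext
      exact hi

end Pool.Agent.H53.EFG
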